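import Mathlib
import Pool.Graph.R_seed8.H713R5.QJ.TAF

/-! # Tools: pushing integrals forward by a polynomial, trapping discs, real orbits -/

set_option autoImplicit false

open Topology Filter Metric Set Polynomial MeasureTheory
open Pool.Agent.H713R5.QJ (ev af_holds af_mem)

namespace Pool.Agent.H20.SH

/-- Pushing an integral forward by a polynomial which is at most `N` to one on `A`. -/
theorem push {T : ℂ[X]} (hT : 0 < T.natDegree) {A E : Set ℂ} (hA : MeasurableSet A)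
    (hE : MeasurableSet E) (N : ℕ)
    (hN : ∀ (w : ℂ) (F : Finset ℂ), (∀ z ∈ F, z ∈ A ∧ ev T z = w) → F.card ≤ N)
    {G : ℂ → ENNReal} (hG : Measurable G) (hAE : ∀ z ∈ A, ev T z ∈ E) :
    ∫⁻ z in A, G (ev T z) * ENNReal.ofReal (‖(derivative T).eval z‖ ^ 2) ≤
      N * ∫⁻ w in E, G w := by
  classical
  have hc : Continuous (ev T) := T.continuous
  have h1 := af_holds T (A.indicator fun z => G (ev T z)) E hT
    ((hG.comp hc.measurable).indicator hA) hE
  calc ∫⁻ z in A, G (ev T z) * ENNReal.ofReal (‖(derivative T).eval z‖ ^ 2)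
      = ∫⁻ z in (ev T) ⁻¹' E, A.indicator (fun z => G (ev T z)) z *
          ENNReal.ofReal (‖(derivative T).eval z‖ ^ 2) := by
        rw [← lintegral_indicator hA, ← lintegral_indicator (hc.measurable hE)]
        congr 1
        funext z
        by_cases hz : z ∈ A
        · rw [indicator_of_mem hz, indicator_of_mem (s := (ev T) ⁻¹' E) (hAE z hz),
            indicator_of_mem hz]
        · rw [indicator_of_notMem hz]
          by_cases hz2 : z ∈ (ev T) ⁻¹' E
          · rw [indicator_of_mem hz2, indicator_of_notMem hz, zero_mul]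
          · rw [indicator_of_notMem hz2]
    _ = ∫⁻ w in E, ∑ ζ ∈ (T - C w).roots.toFinset, A.indicator (fun z => G (ev T z)) ζ := h1.symm
    _ ≤ ∫⁻ w in E, N * G w := by
        apply lintegral_mono
        intro w
        show ∑ ζ ∈ (T - C w).roots.toFinset, A.indicator (fun z => G (ev T z)) ζ ≤ N * G w
        have h2 : ∑ ζ ∈ (T - C w).roots.toFinset, A.indicator (fun z => G (ev T z)) ζ =
            ∑ ζ ∈ (T - C w).roots.toFinset.filter (fun ζ => ζ ∈ A), G w := by
          rw [Finset.sum_filter]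
          apply Finset.sum_congr rfl
          intro ζ hζ
          rw [af_mem hT] at hζ
          by_cases hζA : ζ ∈ A
          · rw [indicator_of_mem hζA, if_pos hζA, hζ]
          · rw [indicator_of_notMem hζA, if_neg hζA]
        rw [h2, Finset.sum_const, nsmul_eq_mul]
        gcongr
        apply hN w
        intro z hz
        rw [Finset.mem_filter, af_mem hT] at hz
        exact ⟨hz.2, hz.1⟩
    _ = N * ∫⁻ w in E, G w := lintegral_const_mul _ hG

/-- a polynomial is at most `natDegree` to one -/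
theorem card_le {T : ℂ[X]} (hT : 0 < T.natDegree) {A : Set ℂ} (w : ℂ) (F : Finset ℂ)
    (hF : ∀ z ∈ F, z ∈ A ∧ ev T z = w) : F.card ≤ T.natDegree := by
  classical
  have h1 : F ⊆ (T - C w).roots.toFinset := fun z hz => (af_mem hT w z).2 (hF z hz).2
  calc F.card ≤ (T - C w).roots.toFinset.card := Finset.card_le_card h1
    _ ≤ Multiset.card (T - C w).roots := Multiset.toFinset_card_le _
    _ ≤ (T - C w).natDegree := card_roots' _
    _ = T.natDegree := natDegree_sub_C

/-- an injective map is one to one -/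
theorem card_le_one {T : ℂ[X]} {A : Set ℂ} (hi : InjOn (ev T) A) (w : ℂ) (F : Finset ℂ)
    (hF : ∀ z ∈ F, z ∈ A ∧ ev T z = w) : F.card ≤ 1 := by
  rw [Finset.card_le_one]
  intro a ha b hb
  exact hi (hF a ha).1 (hF b hb).1 ((hF a ha).2.trans (hF b hb).2.symm)

/-- The integral of `1 / ‖w‖` over a disc. -/
theorem inv_disc (r : ℝ) :
    ∫⁻ w in ball (0 : ℂ) r, ENNReal.ofReal (‖w‖⁻¹) ≤ ENNReal.ofReal (4 * Real.pi * r) := by
  rcases le_or_gt r 0 with hr | hr
  · rw [ball_eq_empty.2 hr]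
    simp
  have hX : (X ^ 2 : ℂ[X]).natDegree = 2 := natDegree_X_pow 2
  have hpos : 0 < (X ^ 2 : ℂ[X]).natDegree := by rw [hX]; norm_num
  have h1 := af_holds (X ^ 2) (fun z => ENNReal.ofReal ((‖z‖ ^ 2)⁻¹)) (ball 0 r) hpos
    (by fun_prop) measurableSet_ball
  have h2 : ∀ w : ℂ, ENNReal.ofReal (‖w‖⁻¹) ≤
      ∑ ζ ∈ ((X ^ 2 : ℂ[X]) - C w).roots.toFinset, ENNReal.ofReal ((‖ζ‖ ^ 2)⁻¹) := by
    intro w
    obtain ⟨ζ, hζ⟩ := IsAlgClosed.exists_pow_nat_eq w (n := 2) (by norm_num)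
    have h3 : ζ ∈ ((X ^ 2 : ℂ[X]) - C w).roots.toFinset := by
      rw [af_mem hpos]
      show (X ^ 2 : ℂ[X]).eval ζ = w
      simpa using hζ
    have h4 : ENNReal.ofReal (‖w‖⁻¹) = ENNReal.ofReal ((‖ζ‖ ^ 2)⁻¹) := by
      rw [← hζ, norm_pow]
    rw [h4]
    exact Finset.single_le_sum (f := fun ζ => ENNReal.ofReal ((‖ζ‖ ^ 2)⁻¹))
      (fun _ _ => zero_le) h3
  calc ∫⁻ w in ball (0 : ℂ) r, ENNReal.ofReal (‖w‖⁻¹)
      ≤ ∫⁻ w in ball (0 : ℂ) r, ∑ ζ ∈ ((X ^ 2 : ℂ[X]) - C w).roots.toFinset,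
          ENNReal.ofReal ((‖ζ‖ ^ 2)⁻¹) := lintegral_mono h2
    _ = ∫⁻ z in (ev (X ^ 2)) ⁻¹' ball 0 r, ENNReal.ofReal ((‖z‖ ^ 2)⁻¹) *
          ENNReal.ofReal (‖(derivative (X ^ 2 : ℂ[X])).eval z‖ ^ 2) := h1
    _ ≤ ∫⁻ _ in (ev (X ^ 2)) ⁻¹' ball 0 r, ENNReal.ofReal 4 := by
        apply lintegral_mono
        intro z
        show ENNReal.ofReal ((‖z‖ ^ 2)⁻¹) *
          ENNReal.ofReal (‖(derivative (X ^ 2 : ℂ[X])).eval z‖ ^ 2) ≤ ENNReal.ofReal 4
        rw [← ENNReal.ofReal_mul (by positivity)]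
        apply ENNReal.ofReal_le_ofReal
        have h5 : (derivative (X ^ 2 : ℂ[X])).eval z = 2 * z := by
          simp
          left
          norm_num
        rw [h5, norm_mul]
        rcases eq_or_ne z 0 with rfl | hz
        · simp
        · have h6 : ‖z‖ ≠ 0 := norm_ne_zero_iff.2 hz
          have h7 : ‖(2 : ℂ)‖ = 2 := by simp
          rw [h7]
          field_simp
          norm_num
    _ = ENNReal.ofReal 4 * volume ((ev (X ^ 2)) ⁻¹' ball 0 r) := setLIntegral_const _ _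
    _ ≤ ENNReal.ofReal 4 * volume (ball (0 : ℂ) (Real.sqrt r)) := by
        gcongr
        intro z hz
        have h8 : ‖(X ^ 2 : ℂ[X]).eval z‖ < r := by
          have : ev (X ^ 2) z ∈ ball (0 : ℂ) r := hz
          rwa [mem_ball_zero_iff] at this
        rw [mem_ball_zero_iff]
        apply Real.lt_sqrt_of_sq_lt
        simpa [norm_pow] using h8
    _ = ENNReal.ofReal (4 * Real.pi * r) := by
        rw [Complex.volume_ball, ← ENNReal.ofReal_pow (Real.sqrt_nonneg r), Real.sq_sqrt hr.le,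
          ← ENNReal.ofReal_coe_nnreal, ← ENNReal.ofReal_mul hr.le,
          ← ENNReal.ofReal_mul (by norm_num)]
        congr 1
        rw [NNReal.coe_real_pi]
        ring

/-- the same with another centre -/
theorem inv_disc' (y : ℂ) (r : ℝ) :
    ∫⁻ w in ball y r, ENNReal.ofReal (‖w - y‖⁻¹) ≤ ENNReal.ofReal (4 * Real.pi * r) := by
  have h1 : ∫⁻ w in ball y r, ENNReal.ofReal (‖w - y‖⁻¹) =
      ∫⁻ w in ball (0 : ℂ) r, ENNReal.ofReal (‖w‖⁻¹) := by
    rw [← lintegral_indicator measurableSet_ball, ← lintegral_indicator measurableSet_ball,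
      ← lintegral_sub_right_eq_self
        (fun w => (ball (0 : ℂ) r).indicator (fun w => ENNReal.ofReal (‖w‖⁻¹)) w) y]
    congr 1
    funext w
    by_cases hw : w ∈ ball y r
    · have hw' : w - y ∈ ball (0 : ℂ) r := by
        rw [mem_ball_zero_iff, ← dist_eq_norm]; exact hw
      rw [indicator_of_mem hw, indicator_of_mem hw']
    · have hw' : w - y ∉ ball (0 : ℂ) r := by
        rw [mem_ball_zero_iff, ← dist_eq_norm]; exact hw
      rw [indicator_of_notMem hw, indicator_of_notMem hw']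
  rw [h1]
  exact inv_disc r

/-- The points with bounded orbits -/
def Kb (f : ℂ → ℂ) : Set ℂ := {z | ∀ n : ℕ, ‖f^[n] z‖ ≤ 2}

theorem Kb_closed {f : ℂ → ℂ} (hf : Continuous f) : IsClosed (Kb f) := by
  have : Kb f = ⋂ n : ℕ, {z | ‖f^[n] z‖ ≤ 2} := by
    ext z
    simp [Kb]
  rw [this]
  exact isClosed_iInter fun n => isClosed_le (hf.iterate n).norm continuous_const

theorem Kb_map {f : ℂ → ℂ} {z : ℂ} (hz : z ∈ Kb f) : f z ∈ Kb f := fun n => by
  rw [← Function.iterate_succ_apply]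
  exact hz (n + 1)

theorem Kb_norm {f : ℂ → ℂ} {z : ℂ} (hz : z ∈ Kb f) : ‖z‖ ≤ 2 := hz 0

theorem Kb_sub (f : ℂ → ℂ) : Kb f ⊆ closedBall 0 2 := fun z hz => by
  rw [mem_closedBall_zero_iff]
  exact Kb_norm hz

theorem Kb_fin (f : ℂ → ℂ) : volume (Kb f) ≠ ⊤ :=
  ((measure_mono (Kb_sub f)).trans_lt measure_closedBall_lt_top).ne

/-- The points outside `Kb` escape. -/
theorem esc_of {f : ℂ → ℂ} (hg : ∀ x : ℂ, 2 < ‖x‖ → 2 * (‖x‖ - 2) ≤ ‖f x‖ - 2) {z : ℂ}
    (hz : z ∉ Kb f) : Tendsto (fun k : ℕ => ‖f^[k] z‖) atTop atTop := by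
  unfold Kb at hz
  simp only [mem_ofPred_eq, not_forall, not_le] at hz
  obtain ⟨n, hn⟩ := hz
  have h1 : ∀ i : ℕ, 2 ^ i * (‖f^[n] z‖ - 2) ≤ ‖f^[i + n] z‖ - 2 := by
    intro i
    induction i with
    | zero => simp
    | succ i ih =>
      have h2 : 0 < 2 ^ i * (‖f^[n] z‖ - 2) := mul_pos (by positivity) (by linarith)
      have h3 := hg (f^[i + n] z) (by linarith)
      rw [show i + 1 + n = (i + n) + 1 by ring, Function.iterate_succ_apply']
      calc 2 ^ (i + 1) * (‖f^[n] z‖ - 2) = 2 * (2 ^ i * (‖f^[n] z‖ - 2)) := by ring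
        _ ≤ 2 * (‖f^[i + n] z‖ - 2) := by linarith
        _ ≤ _ := h3
  rw [← tendsto_add_atTop_iff_nat n]
  have h4 : Tendsto (fun i : ℕ => (2 : ℝ) ^ i * (‖f^[n] z‖ - 2)) atTop atTop :=
    (tendsto_pow_atTop_atTop_of_one_lt one_lt_two).atTop_mul_const (by linarith)
  exact tendsto_atTop_mono (fun i => by have := h1 i; linarith) h4

/-- a root near zero -/
theorem root_near {p : ℂ[X]} (h : (derivative p).eval 0 ≠ 0) :
    ∃ z : ℂ, p.eval z = 0 ∧ ‖z‖ * ‖(derivative p).eval 0‖ ≤ p.natDegree * ‖p.eval 0‖ := by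
  by_cases h0 : p.eval 0 = 0
  · exact ⟨0, h0, by rw [norm_zero, zero_mul]; positivity⟩
  have hp : p ≠ 0 := by
    rintro rfl
    simp at h0
  have hs := (IsAlgClosed.splits p).eval_derivative_div_eval_of_ne_zero h0
  by_contra hcon
  push Not at hcon
  have hd : 0 < ‖(derivative p).eval 0‖ := norm_pos_iff.2 h
  have hp0 : 0 < ‖p.eval 0‖ := norm_pos_iff.2 h0
  have hN : 0 < (p.natDegree : ℝ) := by
    rcases Nat.eq_zero_or_pos p.natDegree with h1 | h1
    · rw [eq_C_of_natDegree_eq_zero h1] at h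
      simp at h
    · exact_mod_cast h1
  have h2 : ∀ z ∈ p.roots, ‖1 / (0 - z)‖ < ‖(derivative p).eval 0‖ /
      (p.natDegree * ‖p.eval 0‖) := by
    intro z hz
    rw [mem_roots hp] at hz
    have h3 := hcon z hz
    have h4 : 0 < ‖z‖ := by
      by_contra h5
      have h6 : ‖z‖ = 0 := le_antisymm (not_lt.1 h5) (norm_nonneg z)
      rw [h6, zero_mul] at h3
      have : 0 < (p.natDegree : ℝ) * ‖p.eval 0‖ := by positivity
      linarith
    rw [zero_sub, norm_div, norm_one, norm_neg, div_lt_div_iff₀ h4 (by positivity), one_mul]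
    linarith
  have h5 : ‖(p.roots.map fun z => 1 / (0 - z)).sum‖ <
      ‖(derivative p).eval 0‖ / ‖p.eval 0‖ := by
    have h6 : ‖(p.roots.map fun z => 1 / (0 - z)).sum‖ ≤
        (p.roots.map fun z => ‖1 / (0 - z)‖).sum := by
      have := norm_multiset_sum_le (p.roots.map fun z => 1 / (0 - z))
      rwa [Multiset.map_map] at this
    have h7 : (p.roots.map fun z => ‖1 / (0 - z)‖).sum <
        (p.roots.map fun _ => ‖(derivative p).eval 0‖ / (p.natDegree * ‖p.eval 0‖)).sum := by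
      have hne : p.roots ≠ 0 := by
        intro h8
        have h9 := splits_iff_card_roots.1 (IsAlgClosed.splits p)
        rw [h8, Multiset.card_zero] at h9
        rw [← h9] at hN
        simp at hN
      exact Multiset.sum_lt_sum_of_nonempty hne h2
    have h8 : (p.roots.map fun _ => ‖(derivative p).eval 0‖ / (p.natDegree * ‖p.eval 0‖)).sum =
        ‖(derivative p).eval 0‖ / ‖p.eval 0‖ := by
      rw [Multiset.map_const', Multiset.sum_replicate, splits_iff_card_roots.1 (IsAlgClosed.splits p),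
        nsmul_eq_mul]
      field_simp
    linarith
  rw [← hs, norm_div] at h5
  exact lt_irrefl _ h5

/-- Real orbits which stay above `θ` until they hit zero. -/
theorem real_orbit {g : ℕ → ℝ → ℝ} {lo hi θ : ℝ} (hlh : lo ≤ hi) (hθ : 0 < θ)
    (hc : ∀ k, Continuous (g k)) (hhi : ∀ k, θ < g k hi) (hlo : g 0 lo < 0)
    (hst : ∀ k : ℕ, ∀ t ∈ Icc lo hi, (∀ j ≤ k, θ ≤ g j t) → g k t = θ → g (k + 1) t < 0) (k : ℕ) :
    ∃ t ∈ Icc lo hi, g k t = 0 ∧ ∀ j < k, θ ≤ g j t := by
  have key : ∀ k : ℕ, ∃ u ∈ Icc lo hi, g k u < 0 ∧ ∀ t ∈ Icc u hi, ∀ j < k, θ ≤ g j t := by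
    intro k
    induction k with
    | zero => exact ⟨lo, left_mem_Icc.2 hlh, hlo, fun t _ j hj => absurd hj (Nat.not_lt_zero _)⟩
    | succ k ih =>
      obtain ⟨u, hu, hgu, hut⟩ := ih
      -- the last point where the function is at most `θ`
      set S : Set ℝ := Icc u hi ∩ {t | g k t ≤ θ} with hS
      have hSc : IsCompact S := isCompact_Icc.inter_right (isClosed_le (hc k) continuous_const)
      have hSn : S.Nonempty := ⟨u, left_mem_Icc.2 hu.2, by show g k u ≤ θ; linarith⟩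
      obtain ⟨s, hs⟩ := hSc.exists_isGreatest hSn
      have hsI : s ∈ Icc u hi := hs.1.1
      have hsθ : g k s = θ := by
        apply le_antisymm hs.1.2
        by_contra hcon
        push Not at hcon
        -- the function is larger than `θ` somewhere on the right: intermediate value
        have h1 : θ ∈ Icc (g k s) (g k hi) := ⟨hcon.le, (hhi k).le⟩
        obtain ⟨t, ht, hgt⟩ := intermediate_value_Icc hsI.2 (hc k).continuousOn h1
        have h2 : t ≤ s := hs.2 ⟨⟨hsI.1.trans ht.1, ht.2⟩, hgt.le⟩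
        have h3 : t = s := le_antisymm h2 ht.1
        rw [h3] at hgt
        linarith
      have hall : ∀ t ∈ Icc s hi, ∀ j < k + 1, θ ≤ g j t := by
        intro t ht j hj
        rcases Nat.lt_succ_iff_lt_or_eq.1 hj with hj | rfl
        · exact hut t ⟨hsI.1.trans ht.1, ht.2⟩ j hj
        · rcases eq_or_lt_of_le ht.1 with h1 | h1
          · rw [← h1, hsθ]
          · by_contra hcon
            push Not at hcon
            have h2 : t ≤ s := hs.2 ⟨⟨hsI.1.trans ht.1, ht.2⟩, hcon.le⟩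
            linarith
      refine ⟨s, ⟨hu.1.trans hsI.1, hsI.2⟩, ?_, hall⟩
      apply hst k s ⟨hu.1.trans hsI.1, hsI.2⟩ _ hsθ
      intro j hj
      exact hall s ⟨le_rfl, hsI.2⟩ j (Nat.lt_succ_of_le hj)
  obtain ⟨u, hu, hgu, hut⟩ := key k
  have h1 : (0 : ℝ) ∈ Icc (g k u) (g k hi) := ⟨hgu.le, (hθ.trans (hhi k)).le⟩
  obtain ⟨t, ht, hgt⟩ := intermediate_value_Icc hu.2 (hc k).continuousOn h1
  exact ⟨t, ⟨hu.1.trans ht.1, ht.2⟩, hgt, fun j hj => hut t ht j hj⟩

end Pool.Agent.H20.SH
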