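import Mathlib
import Pool.Agent.H20.SH.Base

/-! # Trapping discs -/

set_option autoImplicit false

open Topology Filter Metric Set Polynomial MeasureTheory
open Pool.Agent.H713R5.QJ (ev)

namespace Pool.Agent.H20.SH

theorem trap {f g : ℂ → ℂ} {k : ℕ} {v : ℕ → ℂ} {e : ℕ → ℝ} {L H D ε : ℝ} (hL : 1 ≤ L) (hH : 1 ≤ H)
    (hD : 1 ≤ D) (hε : 0 ≤ ε) (he : ∀ j < k, 2 ≤ e j) (hvn : ∀ j < k, ‖v j‖ ≤ 2) (hvk : v k = 0)
    (h0 : ∀ z, ‖z‖ ≤ 1 → ‖f z - v 0‖ ≤ L * ‖z‖ ^ 2)
    (hs : ∀ j < k, ∀ x, ‖x - v j‖ ≤ 1 → ‖f x - v (j + 1)‖ ≤ e j * ‖x - v j‖ + H * ‖x - v j‖ ^ 2)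
    (hg : ∀ x, ‖x‖ ≤ 3 → ‖g x - f x‖ ≤ D * ε)
    {κ Q : ℝ} (hκ : κ = 1 / (4 * (L + H))) (hQ : Q = ∏ i ∈ Finset.range k, e i)
    (hεs : ε ≤ κ / (8 * D * Q ^ 2)) :
    ∀ z, ‖z‖ ≤ κ / Q → ‖g^[k + 1] z‖ ≤ κ / Q := by
  set P : ℕ → ℝ := fun j => ∏ i ∈ Finset.range j, e i with hP
  have hP0 : P 0 = 1 := by simp [hP]
  have hPs : ∀ j, P (j + 1) = P j * e j := fun j => Finset.prod_range_succ _ _
  have hP2 : ∀ j ≤ k, (2 : ℝ) ^ j ≤ P j := by
    intro j
    induction j with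
    | zero => intro _; rw [hP0, pow_zero]
    | succ j ih =>
      intro hj
      rw [hPs, pow_succ]
      exact mul_le_mul (ih (by omega)) (he j (by omega)) (by norm_num)
        (le_trans (by positivity) (ih (by omega)))
  have hPpos : ∀ j ≤ k, 0 < P j := fun j hj => lt_of_lt_of_le (by positivity) (hP2 j hj)
  have hP2s : ∀ j, j < k → 2 * P j ≤ P (j + 1) := by
    intro j hj
    rw [hPs]
    have := mul_le_mul_of_nonneg_left (he j hj) (hPpos j hj.le).le
    linarith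
  have hPk : ∀ i j : ℕ, i + j ≤ k → P j ≤ P (i + j) := by
    intro i j
    induction i with
    | zero => intro _; rw [zero_add]
    | succ i ih =>
      intro hij
      have h1 := ih (by omega)
      have h2 := hP2s (i + j) (by omega)
      have h3 := hPpos (i + j) (by omega)
      rw [show i + 1 + j = i + j + 1 by ring]
      linarith
  have hQP : Q = P k := hQ
  have hPQ : ∀ j ≤ k, P j ≤ Q := by
    intro j hj
    have := hPk (k - j) j (by omega)
    rwa [Nat.sub_add_cancel hj, ← hQP] at this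
  have hQ1 : 1 ≤ Q := by
    rw [hQP]
    exact le_trans (one_le_pow₀ (by norm_num)) (hP2 k le_rfl)
  have hQ0 : 0 < Q := by linarith
  have hκ0 : 0 < κ := by rw [hκ]; positivity
  have hκL : κ * (L + H) = 1 / 4 := by
    rw [hκ]
    field_simp
  have hκH : κ * H ≤ 1 / 4 := by nlinarith
  have hκL' : κ * L ≤ 1 / 4 := by nlinarith
  have hκ8 : κ ≤ 1 / 8 := by nlinarith
  obtain ⟨r, hr⟩ : ∃ r : ℝ, r = κ / Q := ⟨_, rfl⟩
  have hrQ : Q * r = κ := by rw [hr]; field_simp
  have hr0 : 0 < r := by rw [hr]; positivity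
  have hrκ : r ≤ κ := by nlinarith
  rw [← hr]
  obtain ⟨Y, hY⟩ : ∃ Y : ℝ, Y = 2 * L * r ^ 2 + 4 * D * ε := ⟨_, rfl⟩
  have hY0 : 0 ≤ Y := by rw [hY]; positivity
  have hε' : 4 * D * ε * Q ≤ r / 2 := by
    have h1 : 4 * D * ε * Q ≤ 4 * D * (κ / (8 * D * Q ^ 2)) * Q := by gcongr
    have h2 : 4 * D * (κ / (8 * D * Q ^ 2)) * Q = r / 2 := by
      rw [hr]
      field_simp
      norm_num
    linarith
  have hLr : 2 * L * r ^ 2 * Q ≤ r / 2 := by
    have h1 : 2 * L * r ^ 2 * Q = 2 * (κ * L) * r := by rw [← hrQ]; ring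
    rw [h1]
    nlinarith
  have hYQ : Q * Y ≤ r := by
    rw [hY]
    nlinarith
  have hHY : H * Y * Q ≤ 1 := by
    have h1 : H * Y * Q ≤ H * r := by nlinarith
    nlinarith
  intro z hz
  have key : ∀ j ≤ k, ‖g^[j + 1] z - v j‖ ≤
      P j * (L * r ^ 2 + D * ε + D * ε * (1 - (1 / 2) ^ j) + H * Y ^ 2 / 2 * P j) := by
    intro j
    induction j with
    | zero =>
      intro _
      rw [hP0, zero_add, Function.iterate_one, pow_zero]
      have hz1 : ‖z‖ ≤ 1 := by linarith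
      have h1 := h0 z hz1
      have h2 := hg z (by linarith)
      have h3 : ‖g z - v 0‖ ≤ ‖g z - f z‖ + ‖f z - v 0‖ := by
        have := norm_add_le (g z - f z) (f z - v 0)
        rwa [sub_add_sub_cancel] at this
      have h4 : L * ‖z‖ ^ 2 ≤ L * r ^ 2 := by gcongr
      have h5 : 0 ≤ H * Y ^ 2 / 2 := by positivity
      linarith
    | succ j ih =>
      intro hj
      have hjk : j < k := by omega
      have h1 := ih hjk.le
      set x := g^[j + 1] z with hx
      set U := L * r ^ 2 + D * ε + D * ε * (1 - (1 / 2) ^ j) + H * Y ^ 2 / 2 * P j with hU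
      have hPj := hPpos j hjk.le
      have hPj1 := hPpos (j + 1) hj
      have h2P := hP2s j hjk
      have hDε : 0 ≤ D * ε := by positivity
      have hhalf : (0 : ℝ) < (1 / 2) ^ j := by positivity
      have hhalf1 : ((1 : ℝ) / 2) ^ j ≤ 1 := pow_le_one₀ (by norm_num) (by norm_num)
      have hUY : U ≤ Y := by
        have e1 : H * Y ^ 2 / 2 * P j ≤ Y / 2 := by
          have e2 : H * Y ^ 2 / 2 * P j ≤ H * Y ^ 2 / 2 * Q :=
            mul_le_mul_of_nonneg_left (hPQ j hjk.le) (by positivity)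
          have e3 : H * Y ^ 2 / 2 * Q = (H * Y * Q) * (Y / 2) := by ring
          have e4 : (H * Y * Q) * (Y / 2) ≤ 1 * (Y / 2) :=
            mul_le_mul_of_nonneg_right hHY (by linarith)
          linarith
        have e5 : D * ε * (1 - (1 / 2) ^ j) ≤ D * ε := by nlinarith
        have e6 : L * r ^ 2 + D * ε + D * ε = Y / 2 := by rw [hY]; ring
        rw [hU]
        linarith
      have hd : ‖x - v j‖ ≤ P j * Y := h1.trans (mul_le_mul_of_nonneg_left hUY hPj.le)
      have hd1 : ‖x - v j‖ ≤ 1 := by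
        have e1 : P j * Y ≤ Q * Y := mul_le_mul_of_nonneg_right (hPQ j hjk.le) hY0
        linarith
      have hx3 : ‖x‖ ≤ 3 := by
        have e1 := norm_add_le (x - v j) (v j)
        rw [sub_add_cancel] at e1
        have e2 := hvn j hjk
        linarith
      have h2 := hs j hjk x hd1
      have h3 := hg x hx3
      have h4 : ‖g x - v (j + 1)‖ ≤ ‖g x - f x‖ + ‖f x - v (j + 1)‖ := by
        have := norm_add_le (g x - f x) (f x - v (j + 1))
        rwa [sub_add_sub_cancel] at this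
      rw [Function.iterate_succ_apply']
      refine h4.trans ?_
      have h5 : e j * ‖x - v j‖ ≤ P (j + 1) * U := by
        rw [hPs]
        have := mul_le_mul_of_nonneg_left h1 (le_trans (by norm_num) (he j hjk) : 0 ≤ e j)
        linarith
      have h6 : H * ‖x - v j‖ ^ 2 ≤ H * (P j * Y) ^ 2 := by gcongr
      have h7 : D * ε ≤ P (j + 1) * (D * ε * ((1 / 2) ^ j - (1 / 2) ^ (j + 1))) := by
        have e1 : ((1 : ℝ) / 2) ^ j - (1 / 2) ^ (j + 1) = (1 / 2) ^ (j + 1) := by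
          rw [pow_succ]; ring
        have e2 : (1 : ℝ) ≤ P (j + 1) * (1 / 2) ^ (j + 1) := by
          have e3 := hP2 (j + 1) hj
          have e4 : (2 : ℝ) ^ (j + 1) * (1 / 2) ^ (j + 1) = 1 := by
            rw [← mul_pow]; norm_num
          have e5 := mul_le_mul_of_nonneg_right e3 (by positivity : (0 : ℝ) ≤ (1 / 2) ^ (j + 1))
          linarith
        rw [e1]
        have e6 : P (j + 1) * (D * ε * (1 / 2) ^ (j + 1)) =
          D * ε * (P (j + 1) * (1 / 2) ^ (j + 1)) := by ring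
        rw [e6]
        nlinarith
      have h8 : H * (P j * Y) ^ 2 ≤ P (j + 1) * (H * Y ^ 2 / 2 * (P (j + 1) - P j)) := by
        have e1 : P (j + 1) / 2 ≤ P (j + 1) - P j := by linarith
        have e2 : H * Y ^ 2 / 2 * (P (j + 1) / 2) ≤ H * Y ^ 2 / 2 * (P (j + 1) - P j) :=
          mul_le_mul_of_nonneg_left e1 (by positivity)
        have e3 := mul_le_mul_of_nonneg_left e2 hPj1.le
        have e4 : (2 * P j) ^ 2 ≤ P (j + 1) ^ 2 := by gcongr
        have e5 : H * Y ^ 2 / 4 * (2 * P j) ^ 2 ≤ H * Y ^ 2 / 4 * P (j + 1) ^ 2 :=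
          mul_le_mul_of_nonneg_left e4 (by positivity)
        calc H * (P j * Y) ^ 2 = H * Y ^ 2 / 4 * (2 * P j) ^ 2 := by ring
          _ ≤ H * Y ^ 2 / 4 * P (j + 1) ^ 2 := e5
          _ = P (j + 1) * (H * Y ^ 2 / 2 * (P (j + 1) / 2)) := by ring
          _ ≤ _ := e3
      have h9 : P (j + 1) * (L * r ^ 2 + D * ε + D * ε * (1 - (1 / 2) ^ (j + 1)) +
          H * Y ^ 2 / 2 * P (j + 1)) = P (j + 1) * U +
          P (j + 1) * (D * ε * ((1 / 2) ^ j - (1 / 2) ^ (j + 1))) +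
          P (j + 1) * (H * Y ^ 2 / 2 * (P (j + 1) - P j)) := by
        rw [hU]; ring
      rw [h9]
      linarith
  have hk := key k le_rfl
  rw [hvk, sub_zero] at hk
  refine hk.trans ?_
  have hhalf : (0 : ℝ) < (1 / 2) ^ k := by positivity
  have hDε : 0 ≤ D * ε := by positivity
  have hUY : L * r ^ 2 + D * ε + D * ε * (1 - (1 / 2) ^ k) + H * Y ^ 2 / 2 * P k ≤ Y := by
    have e1 : H * Y ^ 2 / 2 * P k ≤ Y / 2 := by
      rw [← hQP]
      have e3 : H * Y ^ 2 / 2 * Q = (H * Y * Q) * (Y / 2) := by ring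
      have e4 : (H * Y * Q) * (Y / 2) ≤ 1 * (Y / 2) :=
        mul_le_mul_of_nonneg_right hHY (by linarith)
      linarith
    have e5 : D * ε * (1 - (1 / 2) ^ k) ≤ D * ε := by nlinarith
    have e6 : L * r ^ 2 + D * ε + D * ε = Y / 2 := by rw [hY]; ring
    linarith
  calc P k * (L * r ^ 2 + D * ε + D * ε * (1 - (1 / 2) ^ k) + H * Y ^ 2 / 2 * P k)
      ≤ P k * Y := mul_le_mul_of_nonneg_left hUY (hPpos k le_rfl).le
    _ = Q * Y := by rw [hQP]
    _ ≤ r := hYQ

/-- Points in a disc which is mapped into itself by an iterate do not escape. -/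
theorem not_esc {g : ℂ → ℂ} {m : ℕ} {r : ℝ} (hm : 0 < m)
    (hg : ∀ z, ‖z‖ ≤ r → ‖g^[m] z‖ ≤ r) {z : ℂ} (hz : ‖z‖ ≤ r) :
    ¬ Tendsto (fun k : ℕ => ‖g^[k] z‖) atTop atTop := by
  intro h
  have h1 : ∀ i : ℕ, ‖g^[m * i] z‖ ≤ r := by
    intro i
    induction i with
    | zero => simpa using hz
    | succ i ih =>
      rw [Nat.mul_succ, add_comm, Function.iterate_add_apply]
      exact hg _ ih
  have h2 : Tendsto (fun i : ℕ => m * i) atTop atTop :=
    tendsto_id.const_mul_atTop' hm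
  have h3 := h.comp h2
  obtain ⟨i, hi⟩ := (h3.eventually (eventually_gt_atTop r)).exists
  have := h1 i
  simp only [Function.comp_apply] at hi
  linarith

/-- closeness of polynomials with close coefficients -/
theorem eval_close {S T : ℂ[X]} {d : ℕ} {ε : ℝ} (hS : S.natDegree ≤ d) (hT : T.natDegree ≤ d)
    (h : ∀ i, ‖S.coeff i - T.coeff i‖ ≤ ε) {x : ℂ} (hx : ‖x‖ ≤ 3) :
    ‖ev S x - ev T x‖ ≤ ((d + 1) * 3 ^ d) * ε := by
  have hε : 0 ≤ ε := (norm_nonneg _).trans (h 0)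
  have h1 : ev S x - ev T x = ∑ i ∈ Finset.range (d + 1), (S.coeff i - T.coeff i) * x ^ i := by
    show S.eval x - T.eval x = _
    rw [eval_eq_sum_range' (Nat.lt_succ_of_le hS), eval_eq_sum_range' (Nat.lt_succ_of_le hT),
      ← Finset.sum_sub_distrib]
    exact Finset.sum_congr rfl fun i _ => by ring
  rw [h1]
  calc ‖∑ i ∈ Finset.range (d + 1), (S.coeff i - T.coeff i) * x ^ i‖
      ≤ ∑ i ∈ Finset.range (d + 1), ‖(S.coeff i - T.coeff i) * x ^ i‖ := norm_sum_le _ _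
    _ ≤ ∑ i ∈ Finset.range (d + 1), ε * 3 ^ d := by
        apply Finset.sum_le_sum
        intro i hi
        rw [norm_mul, norm_pow]
        have h2 : ‖x‖ ^ i ≤ 3 ^ d := by
          calc ‖x‖ ^ i ≤ 3 ^ i := pow_le_pow_left₀ (norm_nonneg _) hx i
            _ ≤ 3 ^ d := pow_le_pow_right₀ (by norm_num) (by
              have := Finset.mem_range.1 hi; omega)
        exact mul_le_mul (h i) h2 (by positivity) hε
    _ = ((d + 1) * 3 ^ d) * ε := by
        rw [Finset.sum_const, Finset.card_range, nsmul_eq_mul]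
        push_cast
        ring

/-- a critical point near zero -/
theorem crit_near {S T : ℂ[X]} {d : ℕ} {ε r : ℝ} (hS : S.natDegree ≤ d)
    (h : ∀ i, ‖S.coeff i - T.coeff i‖ ≤ ε) (h1 : T.coeff 1 = 0) (h2 : 1 ≤ ‖T.coeff 2‖)
    (hε : ε ≤ 1 / 2) (hr : (d : ℝ) * ε ≤ r) :
    ∃ c : ℂ, (derivative S).eval c = 0 ∧ ‖c‖ ≤ r := by
  have e1 : (derivative S).eval 0 = S.coeff 1 := by
    rw [← coeff_zero_eq_eval_zero, coeff_derivative]
    simp
  have e2 : (derivative (derivative S)).eval 0 = 2 * S.coeff 2 := by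
    rw [← coeff_zero_eq_eval_zero, coeff_derivative, coeff_derivative]
    push_cast
    ring
  have e3 : ‖S.coeff 1‖ ≤ ε := by
    have := h 1
    rwa [h1, sub_zero] at this
  have e4 : 1 ≤ ‖2 * S.coeff 2‖ := by
    have e5 := norm_sub_norm_le (T.coeff 2) (T.coeff 2 - S.coeff 2)
    rw [sub_sub_cancel, norm_sub_rev] at e5
    have e6 := h 2
    rw [norm_mul]
    have : ‖(2 : ℂ)‖ = 2 := by simp
    rw [this]
    linarith
  obtain ⟨c, hc, hcn⟩ := root_near (p := derivative S) (by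
    rw [e2]
    intro h0
    rw [h0, norm_zero] at e4
    linarith)
  refine ⟨c, hc, ?_⟩
  rw [e1, e2] at hcn
  have hdeg : ((derivative S).natDegree : ℝ) ≤ d := by
    have := natDegree_derivative_le S
    exact_mod_cast (show (derivative S).natDegree ≤ d by omega)
  have hε0 : 0 ≤ ε := (norm_nonneg _).trans e3
  calc ‖c‖ = ‖c‖ * 1 := (mul_one _).symm
    _ ≤ ‖c‖ * ‖2 * S.coeff 2‖ := mul_le_mul_of_nonneg_left e4 (norm_nonneg _)
    _ ≤ (derivative S).natDegree * ‖S.coeff 1‖ := hcn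
    _ ≤ d * ε := mul_le_mul hdeg e3 (norm_nonneg _) (by positivity)
    _ ≤ r := hr

end Pool.Agent.H20.SH
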