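import Mathlib
import Pool.Agent.H20.SH.Trap

/-! # Inequalities between integrals over the set of bounded orbits -/

set_option autoImplicit false

open Topology Filter Metric Set Polynomial MeasureTheory
open Pool.Agent.H713R5.QJ (ev)

namespace Pool.Agent.H20.SH

/-- the integral of a nonnegative function -/
noncomputable def LI (A : Set ℂ) (f : ℂ → ℝ) : ENNReal := ∫⁻ z in A, ENNReal.ofReal (f z)

/-- the integral as a real number -/
noncomputable def RI (A : Set ℂ) (f : ℂ → ℝ) : ℝ := (LI A f).toReal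

theorem RI_nonneg (A : Set ℂ) (f : ℂ → ℝ) : 0 ≤ RI A f := ENNReal.toReal_nonneg

theorem ae_notMem {A Z : Set ℂ} (hZ : Z.Finite) : ∀ᵐ z ∂(volume.restrict A), z ∉ Z :=
  ae_restrict_of_ae (measure_eq_zero_iff_ae_notMem.mp (hZ.measure_zero _))

theorem step {T : ℂ[X]} (hT : 0 < T.natDegree) {A : Set ℂ} (hA : MeasurableSet A)
    (hAK : A ⊆ Kb (ev T)) (N : ℕ)
    (hN : ∀ (w : ℂ) (F : Finset ℂ), (∀ z ∈ F, z ∈ A ∧ ev T z = w) → F.card ≤ N)
    {f g f₂ : ℂ → ℝ} (hg : Measurable g) (hf₂ : Measurable f₂)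
    (hg0 : ∀ z, 0 ≤ g z) (hf₂0 : ∀ z, 0 ≤ f₂ z) {C₁ C₂ : ℝ} (hC₁ : 0 ≤ C₁) (hC₂ : 0 ≤ C₂)
    {Z : Set ℂ} (hZ : Z.Finite)
    (h : ∀ z ∈ A, z ∉ Z → f z ≤ C₁ * (g (ev T z) * ‖(derivative T).eval z‖ ^ 2) + C₂ * f₂ z)
    (hGf : LI (Kb (ev T)) g ≠ ⊤) (hF : LI A f₂ ≠ ⊤) :
    LI A f ≠ ⊤ ∧ RI A f ≤ C₁ * (N * RI (Kb (ev T)) g) + C₂ * RI A f₂ := by
  have hc : Continuous (ev T) := T.continuous
  have hdc : Continuous (fun z : ℂ => (derivative T).eval z) := (derivative T).continuous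
  have hKm : MeasurableSet (Kb (ev T)) := (Kb_closed hc).measurableSet
  have h1 : LI A f ≤ ENNReal.ofReal C₁ * (N * LI (Kb (ev T)) g) + ENNReal.ofReal C₂ * LI A f₂ := by
    calc LI A f ≤ ∫⁻ z in A, (ENNReal.ofReal C₁ * (ENNReal.ofReal (g (ev T z)) *
          ENNReal.ofReal (‖(derivative T).eval z‖ ^ 2)) + ENNReal.ofReal C₂ *
          ENNReal.ofReal (f₂ z)) := by
          apply lintegral_mono_ae
          filter_upwards [ae_notMem hZ, ae_restrict_mem hA] with z hz hzA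
          rw [← ENNReal.ofReal_mul (hg0 _), ← ENNReal.ofReal_mul hC₁, ← ENNReal.ofReal_mul hC₂,
            ← ENNReal.ofReal_add (by have := hg0 (ev T z); positivity)
              (mul_nonneg hC₂ (hf₂0 z))]
          exact ENNReal.ofReal_le_ofReal (h z hzA hz)
      _ = ENNReal.ofReal C₁ * (∫⁻ z in A, ENNReal.ofReal (g (ev T z)) *
            ENNReal.ofReal (‖(derivative T).eval z‖ ^ 2)) +
            ENNReal.ofReal C₂ * ∫⁻ z in A, ENNReal.ofReal (f₂ z) := by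
          rw [lintegral_add_left (by fun_prop), lintegral_const_mul _ (by fun_prop),
            lintegral_const_mul _ (by fun_prop)]
      _ ≤ ENNReal.ofReal C₁ * (N * LI (Kb (ev T)) g) + ENNReal.ofReal C₂ * LI A f₂ := by
          gcongr
          · exact push hT hA hKm N hN (G := fun z => ENNReal.ofReal (g z))
              (ENNReal.measurable_ofReal.comp hg) (fun z hz => Kb_map (hAK hz))
          · exact le_refl _
  have h2 : ENNReal.ofReal C₁ * (N * LI (Kb (ev T)) g) + ENNReal.ofReal C₂ * LI A f₂ ≠ ⊤ := by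
    rw [ENNReal.add_ne_top]
    exact ⟨ENNReal.mul_ne_top ENNReal.ofReal_ne_top
      (ENNReal.mul_ne_top (ENNReal.natCast_ne_top N) hGf),
      ENNReal.mul_ne_top ENNReal.ofReal_ne_top hF⟩
  refine ⟨ne_top_of_le_ne_top h2 h1, ?_⟩
  have h3 := ENNReal.toReal_mono h2 h1
  rw [ENNReal.toReal_add (ENNReal.mul_ne_top ENNReal.ofReal_ne_top
      (ENNReal.mul_ne_top (ENNReal.natCast_ne_top N) hGf))
      (ENNReal.mul_ne_top ENNReal.ofReal_ne_top hF), ENNReal.toReal_mul, ENNReal.toReal_mul,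
      ENNReal.toReal_mul, ENNReal.toReal_ofReal hC₁, ENNReal.toReal_ofReal hC₂,
      ENNReal.toReal_natCast] at h3
  exact h3

/-- comparison of integrals -/
theorem RI_le {A B : Set ℂ} (hA : MeasurableSet A) (hAB : A ⊆ B) {f g : ℂ → ℝ} {C : ℝ} (hC : 0 ≤ C)
    (hg : Measurable g) {Z : Set ℂ} (hZ : Z.Finite)
    (h : ∀ z ∈ A, z ∉ Z → f z ≤ C * g z) (hGf : LI B g ≠ ⊤) :
    LI A f ≠ ⊤ ∧ RI A f ≤ C * RI B g := by
  have h1 : LI A f ≤ ENNReal.ofReal C * LI B g := by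
    calc LI A f ≤ ∫⁻ z in A, (ENNReal.ofReal C * ENNReal.ofReal (g z)) := by
          apply lintegral_mono_ae
          filter_upwards [ae_notMem hZ, ae_restrict_mem hA] with z hz hzA
          rw [← ENNReal.ofReal_mul hC]
          exact ENNReal.ofReal_le_ofReal (h z hzA hz)
      _ = ENNReal.ofReal C * ∫⁻ z in A, ENNReal.ofReal (g z) := by
          rw [lintegral_const_mul _ (by fun_prop)]
      _ ≤ ENNReal.ofReal C * LI B g := by
          gcongr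
          exact lintegral_mono_set hAB
  have h2 : ENNReal.ofReal C * LI B g ≠ ⊤ := ENNReal.mul_ne_top ENNReal.ofReal_ne_top hGf
  refine ⟨ne_top_of_le_ne_top h2 h1, ?_⟩
  have h3 := ENNReal.toReal_mono h2 h1
  rw [ENNReal.toReal_mul, ENNReal.toReal_ofReal hC] at h3
  exact h3

/-- splitting the domain -/
theorem RI_split {A A₁ A₂ : Set ℂ} (hA : A ⊆ A₁ ∪ A₂) {f : ℂ → ℝ} (h₁ : LI A₁ f ≠ ⊤)
    (h₂ : LI A₂ f ≠ ⊤) : LI A f ≠ ⊤ ∧ RI A f ≤ RI A₁ f + RI A₂ f := by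
  have h1 : LI A f ≤ LI A₁ f + LI A₂ f :=
    (lintegral_mono_set hA).trans (lintegral_union_le _ _ _)
  have h2 : LI A₁ f + LI A₂ f ≠ ⊤ := ENNReal.add_ne_top.2 ⟨h₁, h₂⟩
  refine ⟨ne_top_of_le_ne_top h2 h1, ?_⟩
  have h3 := ENNReal.toReal_mono h2 h1
  rw [ENNReal.toReal_add h₁ h₂] at h3
  exact h3

theorem RI_inv {A : Set ℂ} (y : ℂ) {r : ℝ} (hr : 0 ≤ r) (hA : A ⊆ ball y r) :
    LI A (fun w => ‖w - y‖⁻¹) ≠ ⊤ ∧ RI A (fun w => ‖w - y‖⁻¹) ≤ 4 * Real.pi * r := by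
  have h1 : LI A (fun w => ‖w - y‖⁻¹) ≤ ENNReal.ofReal (4 * Real.pi * r) :=
    (lintegral_mono_set hA).trans (inv_disc' y r)
  refine ⟨ne_top_of_le_ne_top ENNReal.ofReal_ne_top h1, ?_⟩
  have h2 := ENNReal.toReal_mono ENNReal.ofReal_ne_top h1
  rwa [ENNReal.toReal_ofReal (by positivity)] at h2

theorem LI_add {A : Set ℂ} {f g : ℂ → ℝ} (hf : Measurable f) (h₁ : LI A f ≠ ⊤) (h₂ : LI A g ≠ ⊤) :
    LI A (fun z => f z + g z) ≠ ⊤ := by
  have h1 : LI A (fun z => f z + g z) ≤ LI A f + LI A g := by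
    calc LI A (fun z => f z + g z) ≤ ∫⁻ z in A, (ENNReal.ofReal (f z) + ENNReal.ofReal (g z)) :=
          lintegral_mono fun z => ENNReal.ofReal_add_le
      _ = LI A f + LI A g := lintegral_add_left (ENNReal.measurable_ofReal.comp hf) _
  exact ne_top_of_le_ne_top (ENNReal.add_ne_top.2 ⟨h₁, h₂⟩) h1

theorem RI_one {A : Set ℂ} (hA : volume A ≠ ⊤) : LI A (fun _ => 1) ≠ ⊤ ∧
    RI A (fun _ => 1) = (volume A).toReal := by
  have h1 : LI A (fun _ => 1) = volume A := by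
    unfold LI
    simp only [ENNReal.ofReal_one, setLIntegral_one]
  refine ⟨by rwa [h1], ?_⟩
  unfold RI
  rw [h1]

end Pool.Agent.H20.SH
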