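import Mathlib
import Pool.Agent.H20.SH.Step

/-! # Quadratic polynomials near `z ^ 2 - 2` -/

set_option autoImplicit false

open Topology Filter Metric Set Polynomial MeasureTheory
open Pool.Agent.H713R5.QJ (ev)

namespace Pool.Agent.H20.SH.Quad

/-- the quadratic polynomial -/
noncomputable def T (c : ℝ) : ℂ[X] := X ^ 2 + C (c : ℂ)

theorem ev_T (c : ℝ) (z : ℂ) : ev (T c) z = z ^ 2 + c := by
  show (T c).eval z = _
  simp [T]

theorem der_T (c : ℝ) (z : ℂ) : (derivative (T c)).eval z = 2 * z := by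
  simp only [T, derivative_add, derivative_X_pow, derivative_C, add_zero]
  simp

theorem deg_T (c : ℝ) : (T c).natDegree = 2 := by
  unfold T
  rw [natDegree_add_C, natDegree_X_pow]

/-- the orbit of the critical value -/
structure Orb (c β : ℝ) (k : ℕ) (x : ℕ → ℝ) : Prop where
  hc : c = β - β ^ 2
  h1 : 3 / 2 ≤ β
  h2 : β < 2
  hc1 : c ≤ -1
  x0 : x 0 = c
  xs : ∀ j, x (j + 1) = x j ^ 2 + c
  k1 : 1 ≤ k
  hk : x k = 0
  hj : ∀ j, 1 ≤ j → j < k → 1 ≤ x j

section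
variable {c β : ℝ} {k : ℕ} {x : ℕ → ℝ}

theorem Orb.d0 (h : Orb c β k x) : 0 < c + β := by
  rw [h.hc]
  nlinarith [h.h1, h.h2]

theorem Orb.xle (h : Orb c β k x) (j : ℕ) : |x j| ≤ β := by
  have hβ := h.h1
  have hβ2 := h.h2
  induction j with
  | zero =>
    rw [h.x0, h.hc, abs_le]
    constructor <;> nlinarith
  | succ j ih =>
    rw [h.xs, abs_le]
    have h1 : x j ^ 2 ≤ β ^ 2 := sq_le_sq' (abs_le.1 ih).1 (abs_le.1 ih).2
    have h2 := h.hc
    constructor <;> nlinarith [sq_nonneg (x j)]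

theorem Orb.norm_le (h : Orb c β k x) (j : ℕ) : ‖((x j : ℝ) : ℂ)‖ ≤ 2 := by
  rw [Complex.norm_real]
  exact (h.xle j).trans h.h2.le

/-- the weights -/
noncomputable def GV (c β : ℝ) (z : ℂ) : ℝ := (‖z - c‖ * ‖z - β‖)⁻¹

/-- the weights -/
noncomputable def GE (c β : ℝ) (z : ℂ) : ℝ := (‖z - c‖ * ‖z - β‖ * ‖z + β‖)⁻¹

/-- the weights -/
noncomputable def GM (c β y : ℝ) (z : ℂ) : ℝ := (‖z - c‖ * ‖z - β‖ * ‖z - y‖)⁻¹

theorem GV_meas (c β : ℝ) : Measurable (GV c β) := by unfold GV; fun_prop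

theorem GE_meas (c β : ℝ) : Measurable (GE c β) := by unfold GE; fun_prop

theorem GM_meas (c β y : ℝ) : Measurable (GM c β y) := by unfold GM; fun_prop

theorem GV_nonneg (c β : ℝ) (z : ℂ) : 0 ≤ GV c β z := by unfold GV; positivity

theorem GE_nonneg (c β : ℝ) (z : ℂ) : 0 ≤ GE c β z := by unfold GE; positivity

theorem GM_nonneg (c β y : ℝ) (z : ℂ) : 0 ≤ GM c β y z := by unfold GM; positivity

theorem alg1 {a b b' p p' n q : ℝ} (ha : 0 < a) (hb : 0 < b) (hb' : 0 < b') (hp : 0 < p)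
    (hp' : 0 < p') (hn : 0 < n) (h : b' * p' ≤ 4 * q * a) :
    (a * b * p)⁻¹ ≤ q * ((n ^ 2 * (b * b') * (p * p'))⁻¹ * (2 * n) ^ 2) := by
  have e : q * ((n ^ 2 * (b * b') * (p * p'))⁻¹ * (2 * n) ^ 2) = 4 * q / ((b * b') * (p * p')) := by
    field_simp
    ring
  rw [e, inv_eq_one_div, div_le_div_iff₀ (by positivity) (by positivity)]
  have h2 : b * p * (b' * p') ≤ b * p * (4 * q * a) := mul_le_mul_of_nonneg_left h (by positivity)
  linarith

theorem alg2 {a b b' n δ : ℝ} (ha : 0 < a) (hb : 0 < b) (hb' : 0 < b') (hn : 0 < n)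
    (h : b' ≤ a + δ) :
    (a * b)⁻¹ ≤ 1 / 4 * ((n ^ 2 * (b * b'))⁻¹ * (2 * n) ^ 2) + δ * (a * b * b')⁻¹ := by
  have e : 1 / 4 * ((n ^ 2 * (b * b'))⁻¹ * (2 * n) ^ 2) + δ * (a * b * b')⁻¹ =
      (a + δ) / (a * b * b') := by
    field_simp
    ring
  rw [e, inv_eq_one_div, div_le_div_iff₀ (by positivity) (by positivity)]
  have h2 : a * b * b' ≤ a * b * (a + δ) := mul_le_mul_of_nonneg_left h (by positivity)
  linarith

variable (h : Orb c β k x)
include h

theorem grow (y : ℂ) (hy : 2 < ‖y‖) : 2 * (‖y‖ - 2) ≤ ‖ev (T c) y‖ - 2 := by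
  have h1 : ‖y‖ ^ 2 - |c| ≤ ‖y ^ 2 + c‖ := by
    have h2 := norm_sub_norm_le (y ^ 2) (-(c : ℂ))
    rw [norm_neg, sub_neg_eq_add, norm_pow, Complex.norm_real] at h2
    simpa using h2
  have h3 : |c| ≤ 2 := by
    have := h.xle 0
    rw [h.x0] at this
    linarith [h.h2]
  rw [ev_T]
  nlinarith

omit h in
theorem ev_sub_c (z : ℂ) : ‖ev (T c) z - c‖ = ‖z‖ ^ 2 := by
  rw [ev_T, add_sub_cancel_right, norm_pow]

theorem ev_sub_β (z : ℂ) : ‖ev (T c) z - β‖ = ‖z - β‖ * ‖z + β‖ := by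
  rw [ev_T, ← norm_mul]
  congr 1
  rw [h.hc]
  push_cast
  ring

theorem ev_sub_x (z : ℂ) (j : ℕ) :
    ‖ev (T c) z - (x (j + 1) : ℝ)‖ = ‖z - (x j : ℝ)‖ * ‖z + (x j : ℝ)‖ := by
  rw [ev_T, ← norm_mul]
  congr 1
  rw [h.xs]
  push_cast
  ring

omit h in
theorem norm_der (z : ℂ) : ‖(derivative (T c)).eval z‖ = 2 * ‖z‖ := by
  rw [der_T, norm_mul]
  simp

theorem norm_c : ‖(c : ℂ)‖ ≤ 2 := by
  have := h.norm_le 0
  rwa [h.x0] at this

theorem norm_β : ‖(β : ℂ)‖ ≤ 2 := by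
  rw [Complex.norm_real, Real.norm_eq_abs, abs_of_pos (by linarith [h.h1])]
  exact h.h2.le

omit h in
theorem Km : MeasurableSet (Kb (ev (T c))) :=
  (Kb_closed (T c).continuous).measurableSet

theorem I_fin : LI (Kb (ev (T c))) (GV c β) ≠ ⊤ := by
  have h5 : ∀ y : ℂ, ‖y‖ ≤ 2 → Kb (ev (T c)) ⊆ ball y 5 := by
    intro y hy z hz
    rw [mem_ball, dist_eq_norm]
    have h1 := norm_sub_le z y
    have h2 := Kb_norm hz
    linarith
  have h1 := (RI_inv (c : ℂ) (by norm_num : (0:ℝ) ≤ 5) (h5 _ (norm_c h))).1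
  have h2 := (RI_inv (β : ℂ) (by norm_num : (0:ℝ) ≤ 5) (h5 _ (norm_β h))).1
  have h3 := LI_add (by fun_prop) h1 h2
  refine (RI_le (C := ‖(c : ℂ) - β‖⁻¹) (Z := {(c : ℂ), (β : ℂ)}) Km (Subset.refl _) (by positivity)
    (by fun_prop) (by simp) ?_ h3).1
  intro z _ hz
  have hz1 : 0 < ‖z - c‖ := norm_pos_iff.2 (sub_ne_zero.2 fun e => hz (by simp [e]))
  have hz2 : 0 < ‖z - β‖ := norm_pos_iff.2 (sub_ne_zero.2 fun e => hz (by simp [e]))
  have hcβ : 0 < ‖(c : ℂ) - β‖ := by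
    rw [norm_pos_iff, sub_ne_zero]
    intro e
    have e2 : c = β := by exact_mod_cast e
    linarith [h.hc1, h.h1]
  have h4 : ‖(c : ℂ) - β‖ ≤ ‖z - c‖ + ‖z - β‖ := by
    have := norm_sub_le (z - β) (z - c)
    rw [sub_sub_sub_cancel_left] at this
    linarith
  show (‖z - c‖ * ‖z - β‖)⁻¹ ≤ ‖(c : ℂ) - β‖⁻¹ * (‖z - c‖⁻¹ + ‖z - β‖⁻¹)
  have e : ‖(c : ℂ) - β‖⁻¹ * (‖z - c‖⁻¹ + ‖z - β‖⁻¹) =
      (‖z - c‖ + ‖z - β‖) / (‖(c : ℂ) - β‖ * (‖z - c‖ * ‖z - β‖)) := by
    field_simp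
    ring
  rw [e, inv_eq_one_div, div_le_div_iff₀ (by positivity) (by positivity)]
  have := mul_le_mul_of_nonneg_right h4 (by positivity : 0 ≤ ‖z - c‖ * ‖z - β‖)
  linarith

theorem D_step {r : ℝ} (hr : 0 < r) (hr2 : r ≤ 1 / 2) :
    LI (Kb (ev (T c))) (GM c β (x k)) ≠ ⊤ ∧
      RI (Kb (ev (T c))) (GM c β (x k)) ≤ 1 / r * RI (Kb (ev (T c))) (GV c β) +
        8 * Real.pi * r := by
  have hI := I_fin h
  have h1 := RI_inv (A := ball 0 r) (0 : ℂ) hr.le (Subset.refl _)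
  have h2 := RI_le (A := Kb (ev (T c)) ∩ ball 0 r) (B := ball (0 : ℂ) r) (C := 2)
    (f := GM c β (x k)) (g := fun w => ‖w - 0‖⁻¹) (Z := ∅) (Km.inter measurableSet_ball)
    inter_subset_right (by norm_num) (by fun_prop) (by simp) (by
      rintro z ⟨_, hz⟩ _
      rw [mem_ball_zero_iff] at hz
      show (‖z - c‖ * ‖z - β‖ * ‖z - (x k : ℝ)‖)⁻¹ ≤ 2 * ‖z - 0‖⁻¹
      rw [h.hk, Complex.ofReal_zero]
      have e1 : 1 / 2 ≤ ‖z - c‖ := by
        have e2 := norm_sub_norm_le (c : ℂ) z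
        rw [Complex.norm_real, Real.norm_eq_abs, abs_of_neg (by linarith [h.hc1]),
          norm_sub_rev] at e2
        linarith [h.hc1]
      have e3 : 1 ≤ ‖z - β‖ := by
        have e2 := norm_sub_norm_le (β : ℂ) z
        rw [Complex.norm_real, Real.norm_eq_abs, abs_of_pos (by linarith [h.h1]),
          norm_sub_rev] at e2
        linarith [h.h1]
      rw [mul_inv]
      apply mul_le_mul_of_nonneg_right _ (by positivity)
      rw [inv_le_comm₀ (by nlinarith) (by norm_num)]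
      nlinarith) h1.1
  have h3 := RI_le (A := Kb (ev (T c)) \ ball 0 r) (B := Kb (ev (T c))) (C := 1 / r)
    (f := GM c β (x k)) (g := GV c β) (Z := ∅) (Km.diff measurableSet_ball)
    sdiff_subset (by positivity) (GV_meas c β) (by simp) (by
      rintro z ⟨_, hz⟩ _
      rw [mem_ball_zero_iff, not_lt] at hz
      show (‖z - c‖ * ‖z - β‖ * ‖z - (x k : ℝ)‖)⁻¹ ≤ 1 / r * (‖z - c‖ * ‖z - β‖)⁻¹
      rw [h.hk, Complex.ofReal_zero, sub_zero, mul_inv, mul_comm, one_div]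
      apply mul_le_mul_of_nonneg_right _ (by positivity)
      exact inv_anti₀ hr hz) hI
  obtain ⟨e1, e2⟩ := RI_split (A := Kb (ev (T c))) (f := GM c β (x k))
    (A₁ := Kb (ev (T c)) ∩ ball 0 r) (A₂ := Kb (ev (T c)) \ ball 0 r)
    (by rw [inter_union_sdiff]) h2.1 h3.1
  refine ⟨e1, ?_⟩
  have h4 := h2.2
  have h5 := h3.2
  have h6 := h1.2
  linarith

theorem C_step {j : ℕ} (hj1 : 1 ≤ j) (hjk : j < k)
    (hM : LI (Kb (ev (T c))) (GM c β (x (j + 1))) ≠ ⊤) :
    LI (Kb (ev (T c))) (GM c β (x j)) ≠ ⊤ ∧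
      RI (Kb (ev (T c))) (GM c β (x j)) ≤
        (1 + (c + β)) * RI (Kb (ev (T c))) (GM c β (x (j + 1))) +
          RI (Kb (ev (T c))) (GV c β) := by
  have hI := I_fin h
  have hδ := h.d0
  have hxj := h.hj j hj1 hjk
  have hre : MeasurableSet {z : ℂ | 0 < z.re} :=
    (isOpen_lt continuous_const Complex.continuous_re).measurableSet
  have hre' : MeasurableSet {z : ℂ | z.re ≤ 0} :=
    (isClosed_le Complex.continuous_re continuous_const).measurableSet
  have hinj : InjOn (ev (T c)) (Kb (ev (T c)) ∩ {z : ℂ | 0 < z.re}) := by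
    rintro a ⟨_, ha⟩ b ⟨_, hb⟩ hab
    rw [ev_T, ev_T, add_left_inj] at hab
    have h1 : (a - b) * (a + b) = 0 := by linear_combination hab
    rcases mul_eq_zero.1 h1 with h2 | h2
    · exact sub_eq_zero.1 h2
    · exfalso
      have h3 := congrArg Complex.re h2
      simp only [Complex.add_re, Complex.zero_re] at h3
      have ha' : 0 < a.re := ha
      have hb' : 0 < b.re := hb
      linarith
  obtain ⟨s1, s2⟩ := step (T := T c) (by rw [deg_T]; norm_num)
    (A := Kb (ev (T c)) ∩ {z : ℂ | 0 < z.re}) (Km.inter hre) inter_subset_left 1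
    (card_le_one hinj) (f := GM c β (x j)) (g := GM c β (x (j + 1))) (f₂ := fun _ => 0)
    (GM_meas _ _ _) measurable_const (GM_nonneg _ _ _) (fun _ => le_rfl)
    (C₁ := 1 + (c + β)) (C₂ := 0) (by linarith) le_rfl
    (Z := {0, (c : ℂ), (β : ℂ), -(β : ℂ), ((x j : ℝ) : ℂ), -((x j : ℝ) : ℂ)}) (by simp) (by
      rintro z ⟨hzK, hz⟩ hzZ
      have hz' : 0 < z.re := hz
      simp only [mem_insert_iff, mem_singleton_iff, not_or] at hzZ
      obtain ⟨z1, z2, z3, z4, z5, z6⟩ := hzZ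
      have n1 : 0 < ‖z‖ := norm_pos_iff.2 z1
      have n2 : 0 < ‖z - c‖ := norm_pos_iff.2 (sub_ne_zero.2 z2)
      have n3 : 0 < ‖z - β‖ := norm_pos_iff.2 (sub_ne_zero.2 z3)
      have n4 : 0 < ‖z + β‖ := norm_pos_iff.2 (fun e => z4 (eq_neg_of_add_eq_zero_left e))
      have n5 : 0 < ‖z - (x j : ℝ)‖ := norm_pos_iff.2 (sub_ne_zero.2 z5)
      have n6 : 0 < ‖z + (x j : ℝ)‖ := norm_pos_iff.2 (fun e => z6 (eq_neg_of_add_eq_zero_left e))
      rw [zero_mul, add_zero]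
      unfold GM
      rw [ev_sub_c, ev_sub_β h, ev_sub_x h, norm_der]
      apply alg1 n2 n3 n4 n5 n6 n1
      have e1 : ‖z + (x j : ℝ)‖ ≤ 4 := by
        have := norm_add_le z ((x j : ℝ) : ℂ)
        have := Kb_norm hzK
        have := h.norm_le j
        linarith
      have e2 : ‖z + β‖ ≤ ‖z - c‖ + (c + β) := by
        have e3 := norm_add_le (z - c) ((c + β : ℝ) : ℂ)
        rw [Complex.norm_real, Real.norm_eq_abs, abs_of_pos hδ] at e3
        have e4 : z - c + ((c + β : ℝ) : ℂ) = z + β := by push_cast; ring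
        rwa [e4] at e3
      have e5 : 1 ≤ ‖z - c‖ := by
        have e6 := Complex.re_le_norm (z - c)
        rw [Complex.sub_re, Complex.ofReal_re] at e6
        linarith [h.hc1]
      have e7 : ‖z + β‖ ≤ (1 + (c + β)) * ‖z - c‖ := by nlinarith
      calc ‖z + β‖ * ‖z + (x j : ℝ)‖ ≤ ((1 + (c + β)) * ‖z - c‖) * 4 :=
            mul_le_mul e7 e1 n6.le (by positivity)
        _ = 4 * (1 + (c + β)) * ‖z - c‖ := by ring) hM (by
      unfold LI
      simp)
  have s3 := RI_le (A := Kb (ev (T c)) ∩ {z : ℂ | z.re ≤ 0}) (B := Kb (ev (T c))) (C := 1)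
    (f := GM c β (x j)) (g := GV c β) (Z := ∅) (Km.inter hre')
    inter_subset_left (by norm_num) (GV_meas c β) (by simp) (by
      rintro z ⟨_, hz⟩ _
      have hz' : z.re ≤ 0 := hz
      show (‖z - c‖ * ‖z - β‖ * ‖z - (x j : ℝ)‖)⁻¹ ≤ 1 * (‖z - c‖ * ‖z - β‖)⁻¹
      rw [mul_inv, mul_comm]
      apply mul_le_mul_of_nonneg_right _ (by positivity)
      apply inv_le_one_of_one_le₀
      have e6 := Complex.re_le_norm ((x j : ℝ) - z)
      rw [Complex.sub_re, Complex.ofReal_re, norm_sub_rev] at e6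
      linarith) hI
  obtain ⟨e1, e2⟩ := RI_split (A := Kb (ev (T c))) (f := GM c β (x j))
    (A₁ := Kb (ev (T c)) ∩ {z : ℂ | 0 < z.re}) (A₂ := Kb (ev (T c)) ∩ {z : ℂ | z.re ≤ 0})
    (by
      intro z hz
      rcases lt_or_ge 0 z.re with h1 | h1
      · exact Or.inl ⟨hz, h1⟩
      · exact Or.inr ⟨hz, h1⟩) s1 s3.1
  refine ⟨e1, ?_⟩
  have h5 := s3.2
  push_cast at s2
  linarith

theorem B_step (hM : LI (Kb (ev (T c))) (GM c β (x 1)) ≠ ⊤) :
    LI (Kb (ev (T c))) (GE c β) ≠ ⊤ ∧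
      RI (Kb (ev (T c))) (GE c β) ≤ 2 * RI (Kb (ev (T c))) (GM c β (x 1)) := by
  obtain ⟨s1, s2⟩ := step (T := T c) (by rw [deg_T]; norm_num)
    (A := Kb (ev (T c))) Km (Subset.refl _) (T c).natDegree
    (card_le (by rw [deg_T]; norm_num)) (f := GE c β) (g := GM c β (x 1)) (f₂ := fun _ => 0)
    (GM_meas _ _ _) measurable_const (GM_nonneg _ _ _) (fun _ => le_rfl)
    (C₁ := 1) (C₂ := 0) (by norm_num) le_rfl
    (Z := {0, (c : ℂ), (β : ℂ), -(β : ℂ), -(c : ℂ)}) (by simp) (by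
      rintro z hzK hzZ
      simp only [mem_insert_iff, mem_singleton_iff, not_or] at hzZ
      obtain ⟨z1, z2, z3, z4, z5⟩ := hzZ
      have n1 : 0 < ‖z‖ := norm_pos_iff.2 z1
      have n2 : 0 < ‖z - c‖ := norm_pos_iff.2 (sub_ne_zero.2 z2)
      have n3 : 0 < ‖z - β‖ := norm_pos_iff.2 (sub_ne_zero.2 z3)
      have n4 : 0 < ‖z + β‖ := norm_pos_iff.2 (fun e => z4 (eq_neg_of_add_eq_zero_left e))
      have n5 : 0 < ‖z + c‖ := norm_pos_iff.2 (fun e => z5 (eq_neg_of_add_eq_zero_left e))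
      rw [zero_mul, add_zero]
      unfold GM GE
      have e0 := ev_sub_x h z 0
      rw [zero_add, h.x0] at e0
      rw [ev_sub_c, ev_sub_β h, e0, norm_der]
      have e1 : ‖z + c‖ ≤ 4 := by
        have := norm_add_le z ((c : ℝ) : ℂ)
        have := Kb_norm hzK
        have := norm_c h
        linarith
      have e2 : 1 * ((‖z‖ ^ 2 * (‖z - β‖ * ‖z + β‖) * (‖z - c‖ * ‖z + c‖))⁻¹ * (2 * ‖z‖) ^ 2) =
          4 / (‖z - c‖ * ‖z - β‖ * ‖z + β‖ * ‖z + c‖) := by
        field_simp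
        ring
      rw [e2, inv_eq_one_div, div_le_div_iff₀ (by positivity) (by positivity)]
      have e3 := mul_le_mul_of_nonneg_left e1
        (by positivity : 0 ≤ ‖z - c‖ * ‖z - β‖ * ‖z + β‖)
      linarith) hM (by
      unfold LI
      simp)
  refine ⟨s1, ?_⟩
  rw [deg_T] at s2
  push_cast at s2
  linarith

theorem A_step (hB : LI (Kb (ev (T c))) (GE c β) ≠ ⊤) :
    RI (Kb (ev (T c))) (GV c β) ≤ 2 * (c + β) * RI (Kb (ev (T c))) (GE c β) := by
  have hI := I_fin h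
  have hδ := h.d0
  obtain ⟨s1, s2⟩ := step (T := T c) (by rw [deg_T]; norm_num)
    (A := Kb (ev (T c))) Km (Subset.refl _) (T c).natDegree
    (card_le (by rw [deg_T]; norm_num)) (f := GV c β) (g := GV c β) (f₂ := GE c β)
    (GV_meas _ _) (GE_meas _ _) (GV_nonneg _ _) (GE_nonneg _ _)
    (C₁ := 1 / 4) (C₂ := c + β) (by norm_num) hδ.le
    (Z := {0, (c : ℂ), (β : ℂ), -(β : ℂ)}) (by simp) (by
      rintro z hzK hzZ
      simp only [mem_insert_iff, mem_singleton_iff, not_or] at hzZ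
      obtain ⟨z1, z2, z3, z4⟩ := hzZ
      have n1 : 0 < ‖z‖ := norm_pos_iff.2 z1
      have n2 : 0 < ‖z - c‖ := norm_pos_iff.2 (sub_ne_zero.2 z2)
      have n3 : 0 < ‖z - β‖ := norm_pos_iff.2 (sub_ne_zero.2 z3)
      have n4 : 0 < ‖z + β‖ := norm_pos_iff.2 (fun e => z4 (eq_neg_of_add_eq_zero_left e))
      unfold GV GE
      rw [ev_sub_c, ev_sub_β h, norm_der]
      apply alg2 n2 n3 n4 n1
      have e3 := norm_add_le (z - c) ((c + β : ℝ) : ℂ)
      rw [Complex.norm_real, Real.norm_eq_abs, abs_of_pos hδ] at e3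
      have e4 : z - c + ((c + β : ℝ) : ℂ) = z + β := by push_cast; ring
      rwa [e4] at e3) hI hB
  rw [deg_T] at s2
  push_cast at s2
  linarith

/-- all the integrals are finite, and the first is bounded by the last -/
theorem chain {r : ℝ} (hr : 0 < r) (hr2 : r ≤ 1 / 2) :
    ∀ i j : ℕ, 1 ≤ j → i + j = k → LI (Kb (ev (T c))) (GM c β (x j)) ≠ ⊤ ∧
      RI (Kb (ev (T c))) (GM c β (x j)) ≤ (1 + (c + β)) ^ i *
        (RI (Kb (ev (T c))) (GM c β (x k)) + i * RI (Kb (ev (T c))) (GV c β)) := by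
  have hδ := h.d0
  intro i
  induction i with
  | zero =>
    intro j hj hjk
    rw [zero_add] at hjk
    subst hjk
    refine ⟨(D_step h hr hr2).1, ?_⟩
    simp
  | succ i ih =>
    intro j hj hjk
    obtain ⟨h1, h2⟩ := ih (j + 1) (by omega) (by omega)
    obtain ⟨h3, h4⟩ := C_step h hj (by omega) h1
    refine ⟨h3, h4.trans ?_⟩
    have h5 := mul_le_mul_of_nonneg_left h2 (by linarith : 0 ≤ 1 + (c + β))
    have h6 : RI (Kb (ev (T c))) (GV c β) ≤ (1 + (c + β)) ^ (i + 1) *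
        RI (Kb (ev (T c))) (GV c β) := by
      have h7 : 1 ≤ (1 + (c + β)) ^ (i + 1) := one_le_pow₀ (by linarith)
      have := mul_le_mul_of_nonneg_right h7 (RI_nonneg (Kb (ev (T c))) (GV c β))
      linarith
    have e1 : (1 + (c + β)) ^ (i + 1) * (RI (Kb (ev (T c))) (GM c β (x k)) +
        ((i + 1 : ℕ) : ℝ) * RI (Kb (ev (T c))) (GV c β)) =
        (1 + (c + β)) * ((1 + (c + β)) ^ i * (RI (Kb (ev (T c))) (GM c β (x k)) +
          i * RI (Kb (ev (T c))) (GV c β))) + (1 + (c + β)) ^ (i + 1) *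
        RI (Kb (ev (T c))) (GV c β) := by
      push_cast
      ring
    rw [e1]
    linarith

/-- The area of the set of bounded orbits is at most a constant times the square of `c + β`. -/
theorem area (h64 : c + β ≤ 1 / 64) (hk32 : (c + β) * k ≤ 1 / 32) :
    (volume (Kb (ev (T c)))).toReal ≤ 65536 * Real.pi * (c + β) ^ 2 := by
  set δ := c + β with hδe
  have hδ : 0 < δ := h.d0
  set I := RI (Kb (ev (T c))) (GV c β) with hIe
  have hI0 : 0 ≤ I := RI_nonneg _ _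
  have hr : 0 < 32 * δ := by linarith
  have hr2 : 32 * δ ≤ 1 / 2 := by linarith
  obtain ⟨a1, a2⟩ := D_step h hr hr2
  obtain ⟨b1, b2⟩ := chain h hr hr2 (k - 1) 1 le_rfl (by have := h.k1; omega)
  obtain ⟨c1, c2⟩ := B_step h b1
  have d2 := A_step h c1
  rw [← hδe, ← hIe] at *
  have hpow : (1 + δ) ^ (k - 1) ≤ 2 := by
    calc (1 + δ) ^ (k - 1) ≤ (Real.exp δ) ^ (k - 1) := by
          apply pow_le_pow_left₀ (by linarith)
          have := Real.add_one_le_exp δ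
          linarith
      _ = Real.exp ((k - 1 : ℕ) * δ) := by rw [← Real.exp_nat_mul]
      _ ≤ Real.exp (1 / 2) := by
          apply Real.exp_le_exp.2
          have : ((k - 1 : ℕ) : ℝ) ≤ k := by exact_mod_cast Nat.sub_le _ _
          nlinarith
      _ ≤ 2 := by
          have h1 := Real.exp_one_lt_d9
          have h2 : Real.exp (1 / 2) * Real.exp (1 / 2) = Real.exp 1 := by
            rw [← Real.exp_add]; norm_num
          nlinarith [Real.exp_pos (1 / 2)]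
  have hkI : ((k - 1 : ℕ) : ℝ) * I ≤ k * I := by
    apply mul_le_mul_of_nonneg_right _ hI0
    exact_mod_cast Nat.sub_le _ _
  have hMk : 0 ≤ RI (Kb (ev (T c))) (GM c β (x k)) := RI_nonneg _ _
  have e1 : RI (Kb (ev (T c))) (GM c β (x 1)) ≤
      2 * (RI (Kb (ev (T c))) (GM c β (x k)) + k * I) := by
    refine b2.trans ?_
    apply mul_le_mul hpow (by linarith) (by positivity) (by norm_num)
  have e2 : δ * (1 / (32 * δ) * I) = I / 32 := by field_simp
  have e3 : I ≤ 4 * δ * RI (Kb (ev (T c))) (GM c β (x 1)) := by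
    have := mul_le_mul_of_nonneg_left c2 (by positivity : 0 ≤ 2 * δ)
    linarith
  have e4 : 4 * δ * RI (Kb (ev (T c))) (GM c β (x 1)) ≤
      8 * (δ * (1 / (32 * δ) * I)) + 8 * δ * (8 * Real.pi * (32 * δ)) + 8 * (δ * k) * I := by
    have h1 := mul_le_mul_of_nonneg_left e1 (by positivity : 0 ≤ 4 * δ)
    have h2 := mul_le_mul_of_nonneg_left a2 (by positivity : 0 ≤ 8 * δ)
    linarith
  rw [e2] at e4
  have e5 : 8 * (δ * k) * I ≤ 1 / 4 * I := by
    apply mul_le_mul_of_nonneg_right _ hI0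
    linarith
  have e6 : I ≤ 4096 * Real.pi * δ ^ 2 := by
    have : 8 * δ * (8 * Real.pi * (32 * δ)) = 2048 * Real.pi * δ ^ 2 := by ring
    linarith
  obtain ⟨f1, f2⟩ := RI_one (Kb_fin (ev (T c)))
  obtain ⟨g1, g2⟩ := RI_le (A := Kb (ev (T c))) (B := Kb (ev (T c))) (C := 16)
    (f := fun _ => 1) (g := GV c β) (Z := {(c : ℂ), (β : ℂ)}) Km
    (Subset.refl _) (by norm_num) (GV_meas c β) (by simp) (by
      rintro z hzK hz
      simp only [mem_insert_iff, mem_singleton_iff, not_or] at hz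
      have n2 : 0 < ‖z - c‖ := norm_pos_iff.2 (sub_ne_zero.2 hz.1)
      have n3 : 0 < ‖z - β‖ := norm_pos_iff.2 (sub_ne_zero.2 hz.2)
      unfold GV
      rw [← div_eq_mul_inv, le_div_iff₀ (by positivity), one_mul]
      have m1 : ‖z - c‖ ≤ 4 := by
        have := norm_sub_le z ((c : ℝ) : ℂ)
        have := Kb_norm hzK
        have := norm_c h
        linarith
      have m2 : ‖z - β‖ ≤ 4 := by
        have := norm_sub_le z ((β : ℝ) : ℂ)
        have := Kb_norm hzK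
        have := norm_β h
        linarith
      have := mul_le_mul m1 m2 n3.le (by norm_num)
      linarith) (I_fin h)
  rw [f2] at g2
  change _ ≤ 16 * I at g2
  linarith

omit h in
theorem prod_id {c β : ℝ} {x : ℕ → ℝ} (hc : c = β - β ^ 2) (x0 : x 0 = c)
    (xs : ∀ j, x (j + 1) = x j ^ 2 + c) (n : ℕ) :
    β - x n = (β - c) * ∏ j ∈ Finset.range n, (β + x j) := by
  induction n with
  | zero => simp [x0]
  | succ n ih =>
    rw [Finset.prod_range_succ, ← mul_assoc, ← ih, xs]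
    linear_combination (-1 : ℝ) * hc

/-- the product of the derivatives -/
theorem Q_le : (∏ i ∈ Finset.range k, 2 * |x i|) * (c + β) ≤ 2 := by
  have h1 := prod_id h.hc h.x0 h.xs k
  rw [h.hk, sub_zero] at h1
  have hδ := h.d0
  obtain ⟨m, hm⟩ : ∃ m, k = m + 1 := ⟨k - 1, by have := h.k1; omega⟩
  rw [hm, Finset.prod_range_succ', h.x0] at h1 ⊢
  have h2 : ∏ i ∈ Finset.range m, 2 * |x (i + 1)| ≤ ∏ i ∈ Finset.range m, (β + x (i + 1)) := by
    apply Finset.prod_le_prod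
    · intro i _
      positivity
    · intro i hi
      have h3 := h.hj (i + 1) (by omega) (by have := Finset.mem_range.1 hi; omega)
      have h4 := (abs_le.1 (h.xle (i + 1))).2
      rw [abs_of_pos (by linarith)]
      linarith
  have h5 : 0 ≤ ∏ i ∈ Finset.range m, 2 * |x (i + 1)| := Finset.prod_nonneg fun i _ => by positivity
  have h6 : 2 * |c| ≤ β - c := by
    rw [abs_of_neg (by linarith [h.hc1])]
    linarith
  calc (∏ i ∈ Finset.range m, 2 * |x (i + 1)|) * (2 * |c|) * (c + β)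
      ≤ (∏ i ∈ Finset.range m, (β + x (i + 1))) * (β - c) * (c + β) := by
        apply mul_le_mul_of_nonneg_right _ hδ.le
        exact mul_le_mul h2 h6 (by positivity) (h5.trans h2)
    _ = β := by linear_combination (-1 : ℝ) * h1
    _ ≤ 2 := h.h2.le

/-- `c + β` is exponentially small -/
theorem δ_le : (c + β) * (5 / 2) ^ k ≤ 2 := by
  have h1 := prod_id h.hc h.x0 h.xs k
  rw [h.hk, sub_zero] at h1
  have hδ := h.d0
  obtain ⟨m, hm⟩ : ∃ m, k = m + 1 := ⟨k - 1, by have := h.k1; omega⟩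
  rw [hm, Finset.prod_range_succ', h.x0] at h1
  have h2 : ((5 : ℝ) / 2) ^ m ≤ ∏ i ∈ Finset.range m, (β + x (i + 1)) := by
    calc ((5 : ℝ) / 2) ^ m = ∏ _i ∈ Finset.range m, ((5 : ℝ) / 2) := by
          rw [Finset.prod_const, Finset.card_range]
      _ ≤ _ := by
          apply Finset.prod_le_prod
          · intro i _
            norm_num
          · intro i hi
            have h3 := h.hj (i + 1) (by omega) (by have := Finset.mem_range.1 hi; omega)
            linarith [h.h1]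
  have h6 : (5 : ℝ) / 2 ≤ β - c := by linarith [h.h1, h.hc1]
  rw [hm]
  calc (c + β) * (5 / 2) ^ (m + 1) = (5 / 2) ^ m * (5 / 2) * (c + β) := by ring
    _ ≤ (∏ i ∈ Finset.range m, (β + x (i + 1))) * (β - c) * (c + β) := by
        apply mul_le_mul_of_nonneg_right _ hδ.le
        exact mul_le_mul h2 h6 (by norm_num) (le_trans (by positivity) h2)
    _ = β := by linear_combination (-1 : ℝ) * h1
    _ ≤ 2 := h.h2.le

end

end Pool.Agent.H20.SH.Quad
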