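import Mathlib
import Pool.Agent.H20.SH.Quad

/-! # The real quadratic polynomials with long orbits, and the final step of both cases -/

set_option autoImplicit false

open Topology Filter Metric Set Polynomial MeasureTheory
open Pool.Agent.H713R5.QJ (ev)

namespace Pool.Agent.H20.SH

/-- the critical point near zero does not escape -/
theorem assemble {T : ℂ[X]} {d : ℕ} (hd : T.natDegree = d) (hd1 : 1 ≤ d) (hT1 : T.coeff 1 = 0)
    (hT2 : 1 ≤ ‖T.coeff 2‖)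
    (hgrow : ∀ x : ℂ, 2 < ‖x‖ → 2 * (‖x‖ - 2) ≤ ‖ev T x‖ - 2)
    {k : ℕ} {v : ℕ → ℂ} {e : ℕ → ℝ} {L H C : ℝ} (hL : 1 ≤ L) (hH : 1 ≤ H)
    (he : ∀ j < k, 2 ≤ e j) (hvn : ∀ j < k, ‖v j‖ ≤ 2) (hvk : v k = 0)
    (h0 : ∀ z, ‖z‖ ≤ 1 → ‖ev T z - v 0‖ ≤ L * ‖z‖ ^ 2)
    (hs : ∀ j < k, ∀ x, ‖x - v j‖ ≤ 1 →
      ‖ev T x - v (j + 1)‖ ≤ e j * ‖x - v j‖ + H * ‖x - v j‖ ^ 2)
    (hC : 0 < C)
    (harea : (volume (Kb (ev T))).toReal * (∏ i ∈ Finset.range k, e i) ^ 2 ≤ C) :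
    {z : ℂ | ¬ Tendsto (fun k : ℕ => ‖(ev T)^[k] z‖) atTop atTop} = Kb (ev T) ∧
    0 < volume (Kb (ev T)) ∧
    ∀ S : ℂ[X], S.natDegree = d →
      (∀ i : ℕ, ‖S.coeff i - T.coeff i‖ <
        1 / (32 * (L + H) * ((d + 1) * 3 ^ d) * C) * (volume (Kb (ev T))).toReal) →
      ∃ c : ℂ, (derivative S).eval c = 0 ∧
        ¬ Tendsto (fun k : ℕ => ‖(ev S)^[k] c‖) atTop atTop := by
  set κ : ℝ := 1 / (4 * (L + H)) with hκ
  set Q : ℝ := ∏ i ∈ Finset.range k, e i with hQ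
  set D : ℝ := (d + 1) * 3 ^ d with hD
  have hQ1 : 1 ≤ Q := by
    rw [hQ]
    calc (1 : ℝ) = ∏ _i ∈ Finset.range k, (1 : ℝ) := by simp
      _ ≤ _ := Finset.prod_le_prod (fun _ _ => by norm_num)
        (fun i hi => le_trans (by norm_num) (he i (Finset.mem_range.1 hi)))
  have hQ0 : 0 < Q := by linarith
  have hd0 : (1 : ℝ) ≤ d := by exact_mod_cast hd1
  have h3d : (1 : ℝ) ≤ 3 ^ d := one_le_pow₀ (by norm_num)
  have hDd : (d : ℝ) + 1 ≤ D := by
    rw [hD]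
    nlinarith
  have hD1 : 1 ≤ D := by linarith
  have hκ0 : 0 < κ := by rw [hκ]; positivity
  have hκ1 : κ ≤ 1 / 8 := by
    rw [hκ]
    apply one_div_le_one_div_of_le (by norm_num)
    linarith
  have hK : {z : ℂ | ¬ Tendsto (fun k : ℕ => ‖(ev T)^[k] z‖) atTop atTop} = Kb (ev T) := by
    ext z
    constructor
    · intro hz
      by_contra hcon
      exact hz (esc_of hgrow hcon)
    · intro hz h1
      obtain ⟨n, hn⟩ := (h1.eventually (eventually_gt_atTop 2)).exists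
      exact absurd (hz n) (not_le.2 hn)
  have hself : ∀ z, ‖z‖ ≤ κ / Q → ‖(ev T)^[k + 1] z‖ ≤ κ / Q :=
    trap hL hH hD1 le_rfl he hvn hvk h0 hs (fun x _ => by simp) hκ hQ (by positivity)
  have hvol : 0 < volume (Kb (ev T)) := by
    have h1 : closedBall (0 : ℂ) (κ / Q) ⊆ Kb (ev T) := by
      intro z hz
      rw [mem_closedBall_zero_iff] at hz
      rw [← hK]
      exact not_esc (Nat.succ_pos k) hself hz
    refine lt_of_lt_of_le ?_ (measure_mono h1)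
    exact Metric.measure_closedBall_pos volume _ (by positivity)
  refine ⟨hK, hvol, ?_⟩
  intro S hS hST
  set a : ℝ := (volume (Kb (ev T))).toReal with ha
  have ha0 : 0 ≤ a := ENNReal.toReal_nonneg
  set ε : ℝ := κ / (8 * D * Q ^ 2) with hε
  have hε0 : 0 < ε := by rw [hε]; positivity
  have haε : 1 / (32 * (L + H) * D * C) * a ≤ ε := by
    have e1 : a ≤ C / Q ^ 2 := by
      rw [le_div_iff₀ (by positivity)]
      exact harea
    calc 1 / (32 * (L + H) * D * C) * a ≤ 1 / (32 * (L + H) * D * C) * (C / Q ^ 2) :=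
          mul_le_mul_of_nonneg_left e1 (by positivity)
      _ = ε := by
          rw [hε, hκ]
          field_simp
          ring
  have hcl : ∀ i, ‖S.coeff i - T.coeff i‖ ≤ ε := fun i => (hST i).le.trans haε
  have hεκ : ε * (8 * D * Q ^ 2) = κ := by
    rw [hε]
    field_simp
  have hεs : D * ε ≤ κ / Q := by
    rw [hε, le_div_iff₀ hQ0]
    have e2 : D * (κ / (8 * D * Q ^ 2)) * Q = κ / (8 * Q) := by
      field_simp
    rw [e2, div_le_iff₀ (by positivity)]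
    nlinarith
  have hκQ : κ / Q ≤ 1 / 8 := by
    rw [div_le_iff₀ hQ0]
    linarith
  obtain ⟨c, hc1, hc2⟩ := crit_near (S := S) (T := T) (d := d) (ε := ε) (r := κ / Q) hS.le hcl hT1 hT2
    (by nlinarith) (by nlinarith)
  refine ⟨c, hc1, ?_⟩
  have hself2 : ∀ z, ‖z‖ ≤ κ / Q → ‖(ev S)^[k + 1] z‖ ≤ κ / Q :=
    trap (f := ev T) (g := ev S) hL hH hD1 hε0.le he hvn hvk h0 hs
      (fun x hx => eval_close hS.le hd.le hcl hx) hκ hQ le_rfl
  exact not_esc (Nat.succ_pos k) hself2 hc2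

end Pool.Agent.H20.SH

namespace Pool.Agent.H20.SH.Quad

/-- the orbit of the critical value -/
noncomputable def orb (c : ℝ) : ℕ → ℝ
  | 0 => c
  | j + 1 => orb c j ^ 2 + c

theorem orb_exists (k : ℕ) (hk : 1 ≤ k) : ∃ (c β : ℝ) (x : ℕ → ℝ), Orb c β (k + 1) x := by
  have hcont : ∀ j : ℕ, Continuous fun b : ℝ => orb (b - b ^ 2) j := by
    intro j
    induction j with
    | zero =>
      show Continuous fun b : ℝ => b - b ^ 2
      fun_prop
    | succ j ih =>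
      show Continuous fun b : ℝ => orb (b - b ^ 2) j ^ 2 + (b - b ^ 2)
      fun_prop
  have h2 : ∀ j : ℕ, orb ((2 : ℝ) - 2 ^ 2) (j + 1) = 2 := by
    intro j
    induction j with
    | zero =>
      show ((2 : ℝ) - 2 ^ 2) ^ 2 + ((2 : ℝ) - 2 ^ 2) = 2
      norm_num
    | succ j ih =>
      show orb ((2 : ℝ) - 2 ^ 2) (j + 1) ^ 2 + ((2 : ℝ) - 2 ^ 2) = 2
      rw [ih]
      norm_num
  have hcm : ∀ t : ℝ, t ∈ Icc (8 / 5 : ℝ) 2 → 1 ≤ orb (t - t ^ 2) 1 → t - t ^ 2 < -1 := by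
    intro t ht h1
    have h3 : orb (t - t ^ 2) 1 = (t - t ^ 2) ^ 2 + (t - t ^ 2) := rfl
    rw [h3] at h1
    have h4 : t - t ^ 2 < 0 := by nlinarith [ht.1, ht.2]
    by_contra hcon
    push Not at hcon
    nlinarith
  obtain ⟨t, ht, hk0, hj⟩ := real_orbit (g := fun j b => orb (b - b ^ 2) (j + 1)) (lo := 8 / 5)
    (hi := 2) (θ := 1) (by norm_num) (by norm_num) (fun j => hcont (j + 1))
    (fun j => by
      show 1 < orb ((2 : ℝ) - 2 ^ 2) (j + 1)
      rw [h2]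
      norm_num)
    (by
      show ((8 / 5 : ℝ) - (8 / 5) ^ 2) ^ 2 + ((8 / 5 : ℝ) - (8 / 5) ^ 2) < 0
      norm_num)
    (by
      intro j t ht h1 h3
      show orb (t - t ^ 2) (j + 1) ^ 2 + (t - t ^ 2) < 0
      have h4 := hcm t ht (h1 0 (Nat.zero_le _))
      have h5 : orb (t - t ^ 2) (j + 1) = 1 := h3
      rw [h5]
      linarith) k
  have hc := hcm t ht (hj 0 hk)
  refine ⟨t - t ^ 2, t, orb (t - t ^ 2), ⟨rfl, by linarith [ht.1], ?_, hc.le, rfl, fun _ => rfl,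
    by omega, hk0, ?_⟩⟩
  · rcases lt_or_eq_of_le ht.2 with h3 | h3
    · exact h3
    · exfalso
      have h4 : orb (t - t ^ 2) (k + 1) = 0 := hk0
      rw [h3, h2] at h4
      norm_num at h4
  · intro j hj1 hj2
    obtain ⟨i, rfl⟩ : ∃ i, j = i + 1 := ⟨j - 1, by omega⟩
    exact hj i (by omega)

/-- the quadratic case -/
theorem mainQ : ∃ c₀ : ℝ, 0 < c₀ ∧ ∀ η : ℝ, 0 < η → ∃ T : ℂ[X], T.natDegree = 2 ∧
    (∀ i : ℕ, ‖T.coeff i‖ ≤ 2) ∧ T.leadingCoeff = 1 ∧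
    0 < volume {z : ℂ | ¬ Tendsto (fun k : ℕ => ‖(ev T)^[k] z‖) atTop atTop} ∧
    volume {z : ℂ | ¬ Tendsto (fun k : ℕ => ‖(ev T)^[k] z‖) atTop atTop} < ENNReal.ofReal η ∧
    ∀ S : ℂ[X], S.natDegree = 2 → (∀ i : ℕ, ‖S.coeff i - T.coeff i‖ <
      c₀ * (volume {z : ℂ | ¬ Tendsto (fun k : ℕ => ‖(ev T)^[k] z‖) atTop atTop}).toReal) →
      ∃ c : ℂ, (derivative S).eval c = 0 ∧
        ¬ Tendsto (fun k : ℕ => ‖(ev S)^[k] c‖) atTop atTop := by
  refine ⟨1 / (32 * (1 + 1) * (((2 : ℕ) + 1) * 3 ^ 2) * (262144 * Real.pi)), by positivity, ?_⟩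
  intro η hη
  -- a long orbit
  obtain ⟨k, hk1, hk2, hk3⟩ : ∃ k : ℕ, 1 ≤ k ∧ ((2 : ℝ) / 5) ^ (k + 1) ≤ 1 / 128 ∧
      (2 * ((2 : ℝ) / 5) ^ (k + 1) * ((k + 1 : ℕ) : ℝ) ≤ 1 / 32 ∧
        65536 * Real.pi * (2 * ((2 : ℝ) / 5) ^ (k + 1)) ^ 2 < η) := by
    have t1 : Tendsto (fun n : ℕ => ((2 : ℝ) / 5) ^ n) atTop (𝓝 0) :=
      tendsto_pow_atTop_nhds_zero_of_lt_one (by norm_num) (by norm_num)
    have t2 : Tendsto (fun n : ℕ => 2 * ((2 : ℝ) / 5) ^ n * (n : ℝ)) atTop (𝓝 0) := by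
      have := (tendsto_self_mul_const_pow_of_lt_one (r := (2 : ℝ) / 5) (by norm_num)
        (by norm_num)).const_mul 2
      rw [mul_zero] at this
      refine this.congr fun n => by ring
    have t3 : Tendsto (fun n : ℕ => 65536 * Real.pi * (2 * ((2 : ℝ) / 5) ^ n) ^ 2) atTop (𝓝 0) := by
      have := ((t1.const_mul 2).pow 2).const_mul (65536 * Real.pi)
      simpa using this
    have s1 := (tendsto_add_atTop_iff_nat 1).2 t1
    have s2 := (tendsto_add_atTop_iff_nat 1).2 t2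
    have s3 := (tendsto_add_atTop_iff_nat 1).2 t3
    obtain ⟨k, hk⟩ := (((eventually_ge_atTop 1).and
      (s1.eventually (eventually_le_nhds (by norm_num : (0:ℝ) < 1 / 128)))).and
      ((s2.eventually (eventually_le_nhds (by norm_num : (0:ℝ) < 1 / 32))).and
      (s3.eventually (eventually_lt_nhds hη)))).exists
    exact ⟨k, hk.1.1, hk.1.2, hk.2.1, hk.2.2⟩
  obtain ⟨c, β, x, h⟩ := orb_exists k hk1
  have hδ := h.d0
  have hδ1 : c + β ≤ 2 * ((2 : ℝ) / 5) ^ (k + 1) := by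
    have h1 := δ_le h
    have h2 : ((5 : ℝ) / 2) ^ (k + 1) * ((2 : ℝ) / 5) ^ (k + 1) = 1 := by
      rw [← mul_pow]
      norm_num
    calc c + β = (c + β) * (5 / 2) ^ (k + 1) * (2 / 5) ^ (k + 1) := by
          rw [mul_assoc, h2, mul_one]
      _ ≤ 2 * (2 / 5) ^ (k + 1) := mul_le_mul_of_nonneg_right h1 (by positivity)
  have hA := area h (by linarith) (by
    have := mul_le_mul_of_nonneg_right hδ1 (by positivity : (0 : ℝ) ≤ ((k + 1 : ℕ) : ℝ))
    linarith)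
  have hQ := Q_le h
  have hQ0 : 0 ≤ ∏ i ∈ Finset.range (k + 1), 2 * |x i| :=
    Finset.prod_nonneg fun i _ => by positivity
  obtain ⟨e1, e2, e3⟩ := assemble (T := T c) (d := 2) (deg_T c) (by norm_num)
    (by simp [T, coeff_X_pow, coeff_C]) (by simp [T, coeff_X_pow, coeff_C])
    (grow h) (k := k + 1) (v := fun j => ((x j : ℝ) : ℂ)) (e := fun j => 2 * |x j|)
    (L := 1) (H := 1) (C := 262144 * Real.pi) le_rfl le_rfl
    (by
      intro j hj
      rcases Nat.eq_zero_or_pos j with rfl | hj0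
      · rw [h.x0, abs_of_neg (by linarith [h.hc1])]
        linarith [h.hc1]
      · have := h.hj j hj0 hj
        rw [abs_of_pos (by linarith)]
        linarith)
    (fun j _ => h.norm_le j)
    (by
      show ((x (k + 1) : ℝ) : ℂ) = 0
      rw [h.hk, Complex.ofReal_zero])
    (by
      intro z _
      rw [ev_T, h.x0, add_sub_cancel_right, norm_pow, one_mul])
    (by
      intro j _ z _
      rw [ev_T, h.xs]
      have e1 : z ^ 2 + (c : ℂ) - ((x j ^ 2 + c : ℝ) : ℂ) =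
          2 * (x j : ℂ) * (z - x j) + (z - x j) ^ 2 := by
        push_cast
        ring
      rw [e1]
      refine (norm_add_le _ _).trans ?_
      rw [norm_mul, norm_mul, Complex.norm_real, norm_pow, Real.norm_eq_abs]
      have : ‖(2 : ℂ)‖ = 2 := by simp
      rw [this, one_mul])
    (by positivity)
    (by
      have h1 : ((∏ i ∈ Finset.range (k + 1), 2 * |x i|) * (c + β)) ^ 2 ≤ 2 ^ 2 :=
        pow_le_pow_left₀ (by positivity) hQ 2
      have h2 := mul_le_mul_of_nonneg_right hA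
        (by positivity : 0 ≤ (∏ i ∈ Finset.range (k + 1), 2 * |x i|) ^ 2)
      have h3 := mul_le_mul_of_nonneg_left h1 (by positivity : 0 ≤ 65536 * Real.pi)
      calc (volume (Kb (ev (T c)))).toReal * (∏ i ∈ Finset.range (k + 1), 2 * |x i|) ^ 2
          ≤ 65536 * Real.pi * (c + β) ^ 2 * (∏ i ∈ Finset.range (k + 1), 2 * |x i|) ^ 2 := h2
        _ = 65536 * Real.pi * ((∏ i ∈ Finset.range (k + 1), 2 * |x i|) * (c + β)) ^ 2 := by ring
        _ ≤ 65536 * Real.pi * 2 ^ 2 := h3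
        _ = 262144 * Real.pi := by ring)
  refine ⟨T c, deg_T c, ?_, ?_, ?_⟩
  · intro i
    have h1 : (T c).coeff i = (if i = 2 then 1 else 0) + (if i = 0 then (c : ℂ) else 0) := by
      simp [T, coeff_X_pow, coeff_C]
    rw [h1]
    rcases eq_or_ne i 0 with rfl | h0
    · simpa using (norm_c h)
    · rcases eq_or_ne i 2 with rfl | h2
      · simp
      · simp [h0, h2]
  · rw [leadingCoeff, deg_T]
    simp [T, coeff_X_pow, coeff_C]
  · rw [e1]
    refine ⟨e2, ?_, e3⟩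
    rw [← ENNReal.ofReal_toReal (Kb_fin (ev (T c)))]
    apply (ENNReal.ofReal_lt_ofReal_iff hη).2
    refine lt_of_le_of_lt (hA.trans ?_) hk3.2
    apply mul_le_mul_of_nonneg_left _ (by positivity)
    exact pow_le_pow_left₀ hδ.le hδ1 2

end Pool.Agent.H20.SH.Quad
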