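import Mathlib
import Pool.Agent.H20.SH.Quad2

/-! # The polynomials `lam * z ^ 2 * (z ^ m - 1) + t` -/

set_option autoImplicit false

open Topology Filter Metric Set Polynomial MeasureTheory
open Pool.Agent.H713R5.QJ (ev)

namespace Pool.Agent.H20.SH.High

/-- the basic function -/
def hf (m : ℕ) (z : ℂ) : ℂ := z ^ 2 * (z ^ m - 1)

/-- its derivative -/
def hd (m : ℕ) (z : ℂ) : ℂ := z * ((m + 2) * z ^ m - 2)

/-- the basic polynomial -/
noncomputable def hP (m : ℕ) : ℂ[X] := X ^ (m + 2) - X ^ 2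

/-- the polynomial -/
noncomputable def T (m : ℕ) (lam t : ℝ) : ℂ[X] := C (lam : ℂ) * hP m + C (t : ℂ)

theorem ev_hP (m : ℕ) (z : ℂ) : (hP m).eval z = hf m z := by
  simp only [hP, hf, eval_sub, eval_pow, eval_X]
  ring

theorem der_hP (m : ℕ) (z : ℂ) : (derivative (hP m)).eval z = hd m z := by
  simp only [hP, hd, derivative_sub, derivative_X_pow, eval_sub, eval_mul, eval_pow, eval_X,
    eval_C]
  push_cast
  ring

theorem ev_T (m : ℕ) (lam t : ℝ) (z : ℂ) : ev (T m lam t) z = lam * hf m z + t := by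
  show (T m lam t).eval z = _
  simp only [T, eval_add, eval_mul, eval_C, ev_hP]

theorem der_T (m : ℕ) (lam t : ℝ) (z : ℂ) :
    (derivative (T m lam t)).eval z = lam * hd m z := by
  simp only [T, derivative_add, derivative_mul, derivative_C, eval_add, eval_mul, eval_C,
    der_hP, eval_zero]
  ring

theorem norm_der (m : ℕ) {lam : ℝ} (hl : 0 < lam) (t : ℝ) (z : ℂ) :
    ‖(derivative (T m lam t)).eval z‖ = lam * ‖hd m z‖ := by
  rw [der_T, norm_mul, Complex.norm_real, Real.norm_eq_abs, abs_of_pos hl]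

theorem hasDerivAt_hf (m : ℕ) (z : ℂ) : HasDerivAt (hf m) (hd m z) z := by
  have h1 := (hP m).hasDerivAt z
  rw [der_hP] at h1
  have h2 : (fun x => (hP m).eval x) = hf m := funext fun x => ev_hP m x
  rwa [h2] at h1

/-- the derivative is Lipschitz -/
theorem lip (m : ℕ) : ∃ H : ℝ, 1 ≤ H ∧ ∀ x y : ℂ, ‖x‖ ≤ 3 → ‖y‖ ≤ 3 →
    ‖hd m x - hd m y‖ ≤ H * ‖x - y‖ := by
  obtain ⟨H, hH⟩ := (isCompact_closedBall (0 : ℂ) 3).exists_bound_of_continuousOn
    (derivative (derivative (hP m))).continuous.continuousOn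
  refine ⟨max 1 H, le_max_left _ _, fun x y hx hy => ?_⟩
  have h1 := (convex_closedBall (0 : ℂ) 3).norm_image_sub_le_of_norm_hasDerivWithin_le
    (f := fun z => (derivative (hP m)).eval z)
    (f' := fun z => (derivative (derivative (hP m))).eval z) (C := H) (x := y) (y := x)
    (fun z _ => ((derivative (hP m)).hasDerivAt z).hasDerivWithinAt) hH
    (mem_closedBall_zero_iff.2 hy) (mem_closedBall_zero_iff.2 hx)
  simp only [der_hP] at h1
  exact h1.trans (mul_le_mul_of_nonneg_right (le_max_right _ _) (norm_nonneg _))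

/-- the constants -/
structure Par (m : ℕ) (H lam : ℝ) : Prop where
  m1 : 1 ≤ m
  H1 : 1 ≤ H
  hH : ∀ x y : ℂ, ‖x‖ ≤ 3 → ‖y‖ ≤ 3 → ‖hd m x - hd m y‖ ≤ H * ‖x - y‖
  hl : 10000 * ((m : ℝ) + 2) ^ 2 * H ≤ lam

section
variable {m : ℕ} {H lam : ℝ} (p : Par m H lam)
include p

theorem Par.m1' : (1 : ℝ) ≤ m := by exact_mod_cast p.m1

theorem Par.l1 : 10000 * ((m : ℝ) + 2) ^ 2 ≤ lam := by
  have h1 := p.H1
  have h2 := p.hl
  have h3 : 0 ≤ 10000 * ((m : ℝ) + 2) ^ 2 := by positivity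
  nlinarith

theorem Par.l2 : 30000 * ((m : ℝ) + 2) * H ≤ lam := by
  have h1 := p.H1
  have h2 := p.hl
  have h3 := p.m1'
  have h4 : 3 * (((m : ℝ) + 2) * H) ≤ ((m : ℝ) + 2) * (((m : ℝ) + 2) * H) :=
    mul_le_mul_of_nonneg_right (by linarith) (by positivity)
  nlinarith

theorem Par.l3 : 30000 * ((m : ℝ) + 2) ≤ lam := by
  have h1 := p.H1
  have h2 := p.l2
  have h3 : 0 ≤ 30000 * ((m : ℝ) + 2) := by positivity
  nlinarith

theorem Par.l4 : 90000 ≤ lam := by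
  have h2 := p.l3
  have h3 := p.m1'
  linarith

theorem Par.l0 : 0 < lam := by
  have := p.l4
  linarith

theorem deg_T (t : ℝ) : (T m lam t).natDegree = m + 2 := by
  have h1 : (hP m).natDegree = m + 2 := by
    unfold hP
    have h2 := p.m1
    rw [natDegree_sub_eq_left_of_natDegree_lt (by rw [natDegree_X_pow, natDegree_X_pow]; omega),
      natDegree_X_pow]
  unfold T
  rw [natDegree_add_C, natDegree_C_mul, h1]
  have := p.l0
  exact_mod_cast this.ne'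

/-- mean value inequality -/
theorem mv {v : ℂ} {ρ : ℝ} (hv : ‖v‖ ≤ 2) (hρ : ρ ≤ 1) {z w : ℂ} (hz : ‖z - v‖ ≤ ρ)
    (hw : ‖w - v‖ ≤ ρ) : ‖hf m z - hf m w - hd m v * (z - w)‖ ≤ H * ρ * ‖z - w‖ := by
  have h1 := (convex_closedBall v ρ).norm_image_sub_le_of_norm_hasDerivWithin_le
    (f := fun x => hf m x - hd m v * x) (f' := fun x => hd m x - hd m v * 1) (C := H * ρ)
    (x := w) (y := z)
    (fun x _ => ((hasDerivAt_hf m x).sub ((hasDerivAt_id x).const_mul (hd m v))).hasDerivWithinAt)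
    (by
      intro x hx
      rw [mem_closedBall, dist_eq_norm] at hx
      rw [mul_one]
      have hx3 : ‖x‖ ≤ 3 := by
        have := norm_sub_norm_le x v
        linarith
      refine (p.hH x v hx3 (by linarith)).trans ?_
      exact mul_le_mul_of_nonneg_left hx (by linarith [p.H1]))
    (by rw [mem_closedBall, dist_eq_norm]; exact hw)
    (by rw [mem_closedBall, dist_eq_norm]; exact hz)
  have e : hf m z - hd m v * z - (hf m w - hd m v * w) = hf m z - hf m w - hd m v * (z - w) := by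
    ring
  rwa [e] at h1

/-- the two parts -/
theorem cases_h {z : ℂ} (hz : lam * ‖hf m z‖ ≤ 3) :
    (‖z‖ ≤ 1 / 2 ∧ ‖z‖ ^ 2 ≤ 6 / lam) ∨ (1 / 2 < ‖z‖ ∧ ‖z ^ m - 1‖ ≤ 12 / lam) := by
  have hl := p.l0
  unfold hf at hz
  rw [norm_mul, norm_pow] at hz
  rcases le_or_gt ‖z‖ (1 / 2) with h1 | h1
  · left
    refine ⟨h1, ?_⟩
    have h2 : ‖z ^ m‖ ≤ 1 / 2 := by
      rw [norm_pow]
      calc ‖z‖ ^ m ≤ ‖z‖ ^ 1 := pow_le_pow_of_le_one (norm_nonneg _) (by linarith) p.m1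
        _ ≤ 1 / 2 := by rwa [pow_one]
    have h3 : 1 / 2 ≤ ‖z ^ m - 1‖ := by
      have := norm_sub_norm_le (1 : ℂ) (z ^ m)
      rw [norm_one, norm_sub_rev] at this
      linarith
    rw [le_div_iff₀ hl]
    have h4 := mul_le_mul_of_nonneg_left h3 (by positivity : 0 ≤ lam * ‖z‖ ^ 2)
    linarith
  · right
    refine ⟨h1, ?_⟩
    rw [le_div_iff₀ hl]
    have h4 : 1 / 4 ≤ ‖z‖ ^ 2 := by nlinarith
    have h5 := mul_le_mul_of_nonneg_left h4 (by positivity : 0 ≤ lam * ‖z ^ m - 1‖)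
    linarith

theorem der_big {z : ℂ} (h1 : 1 / 2 ≤ ‖z‖) (h2 : ‖z ^ m - 1‖ ≤ 12 / lam) : 1 / 4 ≤ ‖hd m z‖ := by
  have hl := p.l0
  have hm := p.m1'
  have h3 : (m + 2) * ‖z ^ m - 1‖ ≤ 1 / 2 := by
    have h4 : 12 / lam ≤ 1 / (2 * (m + 2)) := by
      rw [div_le_div_iff₀ hl (by positivity)]
      have := p.l3
      linarith
    calc ((m : ℝ) + 2) * ‖z ^ m - 1‖ ≤ ((m : ℝ) + 2) * (1 / (2 * (m + 2))) :=
          mul_le_mul_of_nonneg_left (h2.trans h4) (by positivity)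
      _ = 1 / 2 := by field_simp
  have h5 : 1 / 2 ≤ ‖((m : ℂ) + 2) * z ^ m - 2‖ := by
    have e : ((m : ℂ) + 2) * z ^ m - 2 = m + (m + 2) * (z ^ m - 1) := by ring
    rw [e]
    have h6 := norm_sub_norm_le (m : ℂ) (-((m + 2) * (z ^ m - 1)))
    rw [norm_neg, sub_neg_eq_add, norm_mul] at h6
    have h7 : ‖(m : ℂ)‖ = m := by simp
    have h8 : ‖(m : ℂ) + 2‖ = m + 2 := by
      have e2 : (m : ℂ) + 2 = ((m + 2 : ℕ) : ℂ) := by push_cast; ring
      rw [e2, Complex.norm_natCast]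
      push_cast
      ring
    rw [h7, h8] at h6
    linarith
  unfold hd
  rw [norm_mul]
  nlinarith [norm_nonneg z]

theorem der_small {z : ℂ} (h1 : ‖z‖ ≤ 1 / 2) (h2 : ‖z‖ ^ 2 ≤ 6 / lam) : ‖z‖ ≤ ‖hd m z‖ := by
  have hl := p.l0
  have hm := p.m1'
  have h3 : ((m : ℝ) + 2) * ‖z‖ ≤ 1 := by
    have h4 : (((m : ℝ) + 2) * ‖z‖) ^ 2 ≤ 1 ^ 2 := by
      rw [mul_pow]
      calc ((m : ℝ) + 2) ^ 2 * ‖z‖ ^ 2 ≤ ((m : ℝ) + 2) ^ 2 * (6 / lam) :=
            mul_le_mul_of_nonneg_left h2 (by positivity)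
        _ ≤ 1 ^ 2 := by
            rw [mul_div_assoc', div_le_iff₀ hl]
            have := p.l1
            nlinarith
    exact le_of_sq_le_sq h4 (by norm_num)
  have h5 : 1 ≤ ‖((m : ℂ) + 2) * z ^ m - 2‖ := by
    have h6 := norm_sub_norm_le (2 : ℂ) (((m : ℂ) + 2) * z ^ m)
    rw [norm_sub_rev, norm_mul, norm_pow] at h6
    have h7 : ‖(2 : ℂ)‖ = 2 := by simp
    have h8 : ‖(m : ℂ) + 2‖ = m + 2 := by
      have e2 : (m : ℂ) + 2 = ((m + 2 : ℕ) : ℂ) := by push_cast; ring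
      rw [e2, Complex.norm_natCast]
      push_cast
      ring
    rw [h7, h8] at h6
    have h9 : ‖z‖ ^ m ≤ ‖z‖ := by
      calc ‖z‖ ^ m ≤ ‖z‖ ^ 1 := pow_le_pow_of_le_one (norm_nonneg _) (by linarith) p.m1
        _ = ‖z‖ := pow_one _
    have h10 := mul_le_mul_of_nonneg_left h9 (by positivity : 0 ≤ (m : ℝ) + 2)
    linarith
  unfold hd
  rw [norm_mul]
  nlinarith [norm_nonneg z]

theorem hf_small {z : ℂ} (h1 : ‖z‖ ≤ 1 / 2) : ‖hf m z‖ ≤ 3 / 2 * ‖z‖ ^ 2 ∧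
    1 / 2 * ‖z‖ ^ 2 ≤ ‖hf m z‖ := by
  have h2 : ‖z ^ m‖ ≤ 1 / 2 := by
    rw [norm_pow]
    calc ‖z‖ ^ m ≤ ‖z‖ ^ 1 := pow_le_pow_of_le_one (norm_nonneg _) (by linarith) p.m1
      _ ≤ 1 / 2 := by rwa [pow_one]
  have h3 : 1 / 2 ≤ ‖z ^ m - 1‖ := by
    have := norm_sub_norm_le (1 : ℂ) (z ^ m)
    rw [norm_one, norm_sub_rev] at this
    linarith
  have h4 : ‖z ^ m - 1‖ ≤ 3 / 2 := by
    have := norm_sub_le (z ^ m) (1 : ℂ)
    rw [norm_one] at this
    linarith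
  unfold hf
  rw [norm_mul, norm_pow]
  constructor
  · have := mul_le_mul_of_nonneg_left h4 (by positivity : 0 ≤ ‖z‖ ^ 2)
    linarith
  · have := mul_le_mul_of_nonneg_left h3 (by positivity : 0 ≤ ‖z‖ ^ 2)
    linarith

theorem grow {t : ℝ} (ht : |t| ≤ 1) (y : ℂ) (hy : 2 < ‖y‖) :
    2 * (‖y‖ - 2) ≤ ‖ev (T m lam t) y‖ - 2 := by
  have hl := p.l4
  rw [ev_T]
  have h1 : ‖(lam : ℂ) * hf m y‖ - 1 ≤ ‖(lam : ℂ) * hf m y + t‖ := by
    have h2 := norm_sub_norm_le ((lam : ℂ) * hf m y) (-(t : ℂ))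
    rw [norm_neg, sub_neg_eq_add, Complex.norm_real, Real.norm_eq_abs] at h2
    linarith
  have h3 : ‖(lam : ℂ) * hf m y‖ = lam * (‖y‖ ^ 2 * ‖y ^ m - 1‖) := by
    unfold hf
    rw [norm_mul, Complex.norm_real, Real.norm_eq_abs, abs_of_pos p.l0, norm_mul, norm_pow]
  have h4 : 1 ≤ ‖y ^ m - 1‖ := by
    have h5 := norm_sub_norm_le (y ^ m) (1 : ℂ)
    rw [norm_one, norm_pow] at h5
    have h6 : ‖y‖ ^ 1 ≤ ‖y‖ ^ m := pow_le_pow_right₀ (by linarith) p.m1
    rw [pow_one] at h6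
    linarith
  have h7 : ‖y‖ ^ 2 ≤ ‖y‖ ^ 2 * ‖y ^ m - 1‖ := le_mul_of_one_le_right (by positivity) h4
  have h8 : 2 * ‖y‖ ≤ ‖y‖ ^ 2 := by nlinarith
  have h9 : 90000 * (2 * ‖y‖) ≤ lam * (‖y‖ ^ 2 * ‖y ^ m - 1‖) :=
    mul_le_mul hl (h8.trans h7) (by positivity) p.l0.le
  rw [h3] at h1
  linarith

theorem K_hf {t : ℝ} (ht : |t| ≤ 1) {z : ℂ} (hz : z ∈ Kb (ev (T m lam t))) :
    lam * ‖hf m z‖ ≤ 3 := by
  have h1 := Kb_norm (Kb_map hz)
  rw [ev_T] at h1
  have h2 := norm_sub_le ((lam : ℂ) * hf m z + t) t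
  rw [add_sub_cancel_right, norm_mul, Complex.norm_real, Complex.norm_real, Real.norm_eq_abs,
    Real.norm_eq_abs, abs_of_pos p.l0] at h2
  linarith

end

/-- the orbit of the critical value -/
structure Orb (m : ℕ) (lam t : ℝ) (k : ℕ) (v : ℕ → ℝ) : Prop where
  ht : |t| ≤ 1
  v0 : v 0 = t
  vs : ∀ j, v (j + 1) = lam * (v j ^ 2 * (v j ^ m - 1)) + t
  hk : v k = 0
  hj : ∀ j < k, 1 / 2 ≤ v j
  hj2 : ∀ j ≤ k, |v j| ≤ 2

section
variable {m : ℕ} {H lam : ℝ} (p : Par m H lam) {t : ℝ} {k : ℕ} {v : ℕ → ℝ}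
  (h : Orb m lam t k v)

theorem vs_c (h : Orb m lam t k v) (j : ℕ) :
    ((v (j + 1) : ℝ) : ℂ) = lam * hf m (v j : ℝ) + t := by
  rw [h.vs]
  unfold hf
  push_cast
  ring

include p h in
theorem v_hf {j : ℕ} (hj : j < k) : lam * ‖hf m (v j : ℝ)‖ ≤ 3 := by
  have h1 := vs_c h j
  have h2 : lam * hf m (v j : ℝ) = (v (j + 1) : ℂ) - t := by rw [h1]; ring
  have h3 := congrArg norm h2
  rw [norm_mul, Complex.norm_real, Real.norm_eq_abs, abs_of_pos p.l0] at h3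
  rw [h3]
  have h4 := norm_sub_le ((v (j + 1) : ℝ) : ℂ) (t : ℂ)
  rw [Complex.norm_real, Complex.norm_real, Real.norm_eq_abs, Real.norm_eq_abs] at h4
  have h5 := h.hj2 (j + 1) hj
  have h6 := h.ht
  linarith

theorem v_norm (h : Orb m lam t k v) {j : ℕ} (hj : j ≤ k) : ‖((v j : ℝ) : ℂ)‖ ≤ 2 := by
  rw [Complex.norm_real, Real.norm_eq_abs]
  exact h.hj2 j hj

include p h in
theorem v_der {j : ℕ} (hj : j < k) : 1 / 4 ≤ ‖hd m (v j : ℝ)‖ := by
  have h1 : 1 / 2 ≤ ‖((v j : ℝ) : ℂ)‖ := by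
    rw [Complex.norm_real, Real.norm_eq_abs, abs_of_pos (by linarith [h.hj j hj])]
    exact h.hj j hj
  have hl := p.l0
  have h2 := v_hf p h hj
  unfold hf at h2
  rw [norm_mul, norm_pow] at h2
  apply der_big p h1
  rw [le_div_iff₀ hl]
  have h4 : 1 / 4 ≤ ‖((v j : ℝ) : ℂ)‖ ^ 2 := by nlinarith
  have h5 := mul_le_mul_of_nonneg_left h4 (by positivity : 0 ≤ lam * ‖((v j : ℝ) : ℂ) ^ m - 1‖)
  linarith

/-- the integral of the inverse of the distance -/
noncomputable def J (m : ℕ) (lam t : ℝ) (y : ℂ) : ℝ :=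
  RI (Kb (ev (T m lam t))) (fun z => ‖z - y‖⁻¹)

theorem J_nonneg (m : ℕ) (lam t : ℝ) (y : ℂ) : 0 ≤ J m lam t y := RI_nonneg _ _

theorem J_fin (m : ℕ) (lam t : ℝ) {y : ℂ} (hy : ‖y‖ ≤ 2) :
    LI (Kb (ev (T m lam t))) (fun z => ‖z - y‖⁻¹) ≠ ⊤ := by
  refine (RI_inv y (by norm_num : (0:ℝ) ≤ 5) ?_).1
  intro z hz
  rw [mem_ball, dist_eq_norm]
  have h1 := norm_sub_le z y
  have h2 := Kb_norm hz
  linarith

theorem Km (m : ℕ) (lam t : ℝ) : MeasurableSet (Kb (ev (T m lam t))) :=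
  (Kb_closed (T m lam t).continuous).measurableSet

/-- the area -/
noncomputable def a (m : ℕ) (lam t : ℝ) : ℝ := (volume (Kb (ev (T m lam t)))).toReal

theorem a_nonneg (m : ℕ) (lam t : ℝ) : 0 ≤ a m lam t := ENNReal.toReal_nonneg

theorem a_eq (m : ℕ) (lam t : ℝ) : RI (Kb (ev (T m lam t))) (fun _ => 1) = a m lam t :=
  (RI_one (Kb_fin _)).2

/-- splitting off a disc -/
theorem J_disc (m : ℕ) (lam t : ℝ) {r : ℝ} (hr : 0 < r) :
    J m lam t 0 ≤ 4 * Real.pi * r + 1 / r * a m lam t := by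
  have h1 := RI_inv (A := Kb (ev (T m lam t)) ∩ ball 0 r) (0 : ℂ) hr.le inter_subset_right
  have h2 := RI_le (A := Kb (ev (T m lam t)) \ ball 0 r) (B := Kb (ev (T m lam t))) (C := 1 / r)
    (f := fun z => ‖z - 0‖⁻¹) (g := fun _ => 1) (Z := ∅) ((Km m lam t).diff measurableSet_ball)
    sdiff_subset (by positivity) measurable_const (by simp) (by
      rintro z ⟨_, hz⟩ _
      rw [mem_ball_zero_iff, not_lt] at hz
      show ‖z - 0‖⁻¹ ≤ 1 / r * 1
      rw [sub_zero, mul_one, one_div]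
      exact inv_anti₀ hr hz) (RI_one (Kb_fin _)).1
  obtain ⟨e1, e2⟩ := RI_split (A := Kb (ev (T m lam t))) (f := fun z : ℂ => ‖z - 0‖⁻¹)
    (A₁ := Kb (ev (T m lam t)) ∩ ball 0 r) (A₂ := Kb (ev (T m lam t)) \ ball 0 r)
    (by rw [inter_union_sdiff]) h1.1 h2.1
  have h3 := h2.2
  rw [a_eq] at h3
  unfold J
  linarith [h1.2]

include p in
/-- the area is bounded by the integral at the critical value -/
theorem a_le (ht : |t| ≤ 1) : a m lam t ≤ ((m : ℝ) + 2) * (16 / lam ^ 2 * a m lam t +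
    2 / lam * J m lam t t) := by
  have hl := p.l0
  have htn : ‖(t : ℂ)‖ ≤ 2 := by
    rw [Complex.norm_real, Real.norm_eq_abs]
    linarith
  have hsm : MeasurableSet {z : ℂ | ‖z‖ ≤ 1 / 2} :=
    (isClosed_le continuous_norm continuous_const).measurableSet
  have hbm : MeasurableSet {z : ℂ | 1 / 2 < ‖z‖} :=
    (isOpen_lt continuous_const continuous_norm).measurableSet
  have hdeg : 0 < (T m lam t).natDegree := by
    rw [deg_T p]
    omega
  obtain ⟨s1, s2⟩ := step (T := T m lam t) hdeg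
    (A := Kb (ev (T m lam t)) ∩ {z : ℂ | ‖z‖ ≤ 1 / 2}) ((Km m lam t).inter hsm)
    inter_subset_left (T m lam t).natDegree
    (card_le hdeg) (f := fun _ => 1) (g := fun z => ‖z - t‖⁻¹) (f₂ := fun _ => 0)
    (by fun_prop) measurable_const (fun _ => by positivity) (fun _ => le_rfl)
    (C₁ := 2 / lam) (C₂ := 0) (by positivity) le_rfl
    (Z := {0}) (by simp) (by
      rintro z ⟨hzK, hz⟩ hzZ
      have hz' : ‖z‖ ≤ 1 / 2 := hz
      have hz0 : 0 < ‖z‖ := norm_pos_iff.2 hzZ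
      have hz2 : ‖z‖ ^ 2 ≤ 6 / lam := by
        rcases cases_h p (K_hf p ht hzK) with h1 | h1
        · exact h1.2
        · linarith [h1.1]
      have h3 := der_small p hz' hz2
      obtain ⟨h4, h5⟩ := hf_small p hz'
      rw [zero_mul, add_zero, norm_der m hl, ev_T, add_sub_cancel_right, norm_mul,
        Complex.norm_real, Real.norm_eq_abs, abs_of_pos hl]
      have h6 : 0 < ‖hf m z‖ := lt_of_lt_of_le (by positivity) h5
      have h7 : ‖z‖ ^ 2 ≤ ‖hd m z‖ ^ 2 := pow_le_pow_left₀ hz0.le h3 2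
      have e : 2 / lam * ((lam * ‖hf m z‖)⁻¹ * (lam * ‖hd m z‖) ^ 2) =
          2 * ‖hd m z‖ ^ 2 / ‖hf m z‖ := by
        field_simp
      rw [e, le_div_iff₀ h6]
      linarith) (J_fin m lam t htn) (by
      unfold LI
      simp)
  obtain ⟨u1, u2⟩ := step (T := T m lam t) hdeg
    (A := Kb (ev (T m lam t)) ∩ {z : ℂ | 1 / 2 < ‖z‖}) ((Km m lam t).inter hbm)
    inter_subset_left (T m lam t).natDegree
    (card_le hdeg) (f := fun _ => 1) (g := fun _ => 1) (f₂ := fun _ => 0)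
    measurable_const measurable_const (fun _ => by norm_num) (fun _ => le_rfl)
    (C₁ := 16 / lam ^ 2) (C₂ := 0) (by positivity) le_rfl
    (Z := ∅) (by simp) (by
      rintro z ⟨hzK, hz⟩ _
      have hz' : 1 / 2 < ‖z‖ := hz
      have hz2 : ‖z ^ m - 1‖ ≤ 12 / lam := by
        rcases cases_h p (K_hf p ht hzK) with h1 | h1
        · linarith [h1.1]
        · exact h1.2
      have h3 := der_big p hz'.le hz2
      rw [zero_mul, add_zero, norm_der m hl, one_mul]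
      have e : 16 / lam ^ 2 * (lam * ‖hd m z‖) ^ 2 = (4 * ‖hd m z‖) ^ 2 := by
        field_simp
        norm_num
      rw [e]
      have h4 : 1 ≤ 4 * ‖hd m z‖ := by linarith
      nlinarith) (RI_one (Kb_fin _)).1 (by
      unfold LI
      simp)
  obtain ⟨e1, e2⟩ := RI_split (A := Kb (ev (T m lam t))) (f := fun _ : ℂ => (1 : ℝ))
    (A₁ := Kb (ev (T m lam t)) ∩ {z : ℂ | ‖z‖ ≤ 1 / 2})
    (A₂ := Kb (ev (T m lam t)) ∩ {z : ℂ | 1 / 2 < ‖z‖})
    (by
      intro z hz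
      rcases le_or_gt ‖z‖ (1 / 2) with h1 | h1
      · exact Or.inl ⟨hz, h1⟩
      · exact Or.inr ⟨hz, h1⟩) s1 u1
  rw [a_eq] at e2
  rw [deg_T p, a_eq] at u2
  rw [deg_T p] at s2
  change _ ≤ 2 / lam * (((m + 2 : ℕ) : ℝ) * J m lam t t) + _ at s2
  push_cast at s2 u2
  linarith

theorem alg3 {p q s e u : ℝ} (hp : 0 < p) (hq : 0 < q) (he : 0 < e) (hu0 : 0 ≤ u)
    (hu : u ≤ 1 / 64) (h1 : q ≤ e * (1 + u) * p) (h2 : e * (1 - u) ≤ s) :
    p⁻¹ ≤ e⁻¹ * (1 + 10 * u) * (q⁻¹ * s ^ 2) := by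
  have e1 : e⁻¹ * (1 + 10 * u) * (q⁻¹ * s ^ 2) = (1 + 10 * u) * s ^ 2 / (e * q) := by
    field_simp
  rw [e1, inv_eq_one_div, div_le_div_iff₀ hp (by positivity), one_mul]
  have h3 : (e * (1 - u)) ^ 2 ≤ s ^ 2 :=
    pow_le_pow_left₀ (mul_nonneg he.le (by linarith)) h2 2
  have h4 : 1 + u ≤ (1 + 10 * u) * (1 - u) ^ 2 := by nlinarith [sq_nonneg u, mul_nonneg hu0 hu0]
  calc e * q ≤ e * (e * (1 + u) * p) := mul_le_mul_of_nonneg_left h1 he.le
    _ = e ^ 2 * p * (1 + u) := by ring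
    _ ≤ e ^ 2 * p * ((1 + 10 * u) * (1 - u) ^ 2) := mul_le_mul_of_nonneg_left h4 (by positivity)
    _ = (1 + 10 * u) * (e * (1 - u)) ^ 2 * p := by ring
    _ ≤ (1 + 10 * u) * s ^ 2 * p := by
        apply mul_le_mul_of_nonneg_right _ hp.le
        exact mul_le_mul_of_nonneg_left h3 (by linarith)

include p h in
/-- one step along the orbit -/
theorem J_step {j : ℕ} (hj : j < k) :
    J m lam t (v j : ℝ) ≤ 256 * H * 2 ^ j * a m lam t +
      (lam * ‖hd m (v j : ℝ)‖)⁻¹ * (1 + 5 / 32 * (1 / 2) ^ j) * J m lam t (v (j + 1) : ℝ) := by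
  have hl := p.l0
  have hH := p.H1
  have hv := v_norm h hj.le
  have hv' := v_norm h (show j + 1 ≤ k from hj)
  have hder := v_der p h hj
  set V : ℂ := ((v j : ℝ) : ℂ) with hV
  set V' : ℂ := ((v (j + 1) : ℝ) : ℂ) with hV'
  have hVV : V' = lam * hf m V + t := vs_c h j
  set η : ℝ := (1 / 2) ^ j / (256 * H) with hη
  have hp2 : ((1 : ℝ) / 2) ^ j ≤ 1 := pow_le_one₀ (by norm_num) (by norm_num)
  have hp20 : 0 < ((1 : ℝ) / 2) ^ j := by positivity
  have hη0 : 0 < η := by rw [hη]; positivity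
  have hHη : H * η = (1 / 2) ^ j / 256 := by
    rw [hη]
    field_simp
  have hη1 : η ≤ 1 := by
    rw [hη, div_le_one (by positivity)]
    linarith
  have hdeg : 0 < (T m lam t).natDegree := by
    rw [deg_T p]
    omega
  have hinj : InjOn (ev (T m lam t)) (Kb (ev (T m lam t)) ∩ ball V η) := by
    rintro x ⟨_, hx⟩ y ⟨_, hy⟩ hxy
    rw [mem_ball, dist_eq_norm] at hx hy
    rw [ev_T, ev_T, add_left_inj] at hxy
    have h1 : hf m x = hf m y := by
      have hlc : (lam : ℂ) ≠ 0 := by exact_mod_cast hl.ne'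
      exact mul_left_cancel₀ hlc hxy
    by_contra hne
    have h2 := mv p hv hη1 hx.le hy.le
    rw [h1, sub_self, zero_sub, norm_neg, norm_mul, hHη] at h2
    have h3 : 0 < ‖x - y‖ := norm_pos_iff.2 (sub_ne_zero.2 hne)
    have h4 := mul_le_mul_of_nonneg_right hder h3.le
    nlinarith
  obtain ⟨s1, s2⟩ := step (T := T m lam t) hdeg
    (A := Kb (ev (T m lam t)) ∩ ball V η) ((Km m lam t).inter measurableSet_ball)
    inter_subset_left 1 (card_le_one hinj)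
    (f := fun z => ‖z - V‖⁻¹) (g := fun z => ‖z - V'‖⁻¹) (f₂ := fun _ => 0)
    (by fun_prop) measurable_const (fun _ => by positivity) (fun _ => le_rfl)
    (C₁ := (lam * ‖hd m V‖)⁻¹ * (1 + 5 / 32 * (1 / 2) ^ j)) (C₂ := 0) (by positivity) le_rfl
    (Z := {V}) (by simp) (by
      rintro z ⟨hzK, hz⟩ hzZ
      rw [mem_ball, dist_eq_norm] at hz
      have hz0 : 0 < ‖z - V‖ := norm_pos_iff.2 (sub_ne_zero.2 hzZ)
      rw [zero_mul, add_zero, norm_der m hl, ev_T, hVV, add_sub_add_right_eq_sub, ← mul_sub,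
        norm_mul, Complex.norm_real, Real.norm_eq_abs, abs_of_pos hl]
      have h2 := mv p hv hη1 hz.le (by rw [sub_self, norm_zero]; exact hη0.le)
      rw [hHη] at h2
      have h3 := norm_sub_norm_le (hf m z - hf m V) (hd m V * (z - V))
      have h4 := norm_sub_norm_le (hd m V * (z - V)) (hf m z - hf m V)
      rw [norm_sub_rev (hd m V * (z - V))] at h4
      rw [norm_mul] at h3 h4
      have h5 := p.hH z V (by
        have := norm_sub_norm_le z V
        linarith) (by linarith)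
      have h6 : H * ‖z - V‖ ≤ (1 / 2) ^ j / 256 := by
        rw [← hHη]
        exact mul_le_mul_of_nonneg_left hz.le (by linarith)
      have h7 := norm_sub_norm_le (hd m V) (hd m z)
      rw [norm_sub_rev] at h7
      have hg : (1 / 2) ^ j / 256 ≤ (1 / 2) ^ j / 64 * ‖hd m V‖ := by nlinarith
      have h8 := alg3 (p := ‖z - V‖) (q := lam * ‖hf m z - hf m V‖) (s := lam * ‖hd m z‖)
        (e := lam * ‖hd m V‖) (u := (1 / 2) ^ j / 64) hz0 (by
          apply mul_pos hl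
          have h9 := mul_le_mul_of_nonneg_right hder hz0.le
          nlinarith) (by positivity) (by positivity) (by linarith) (by
          have h9 := mul_le_mul_of_nonneg_right hg hz0.le
          have h10 : ‖hf m z - hf m V‖ ≤ ‖hd m V‖ * (1 + (1 / 2) ^ j / 64) * ‖z - V‖ := by
            linarith
          have := mul_le_mul_of_nonneg_left h10 hl.le
          linarith) (by
          have h10 : ‖hd m V‖ * (1 - (1 / 2) ^ j / 64) ≤ ‖hd m z‖ := by linarith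
          have := mul_le_mul_of_nonneg_left h10 hl.le
          linarith)
      have e9 : 1 + 10 * ((1 / 2) ^ j / 64) = 1 + 5 / 32 * ((1 : ℝ) / 2) ^ j := by ring
      rw [e9] at h8
      exact h8) (J_fin m lam t hv') (by
      unfold LI
      simp)
  have s3 := RI_le (A := Kb (ev (T m lam t)) \ ball V η) (B := Kb (ev (T m lam t)))
    (C := 256 * H * 2 ^ j)
    (f := fun z => ‖z - V‖⁻¹) (g := fun _ => 1) (Z := ∅) ((Km m lam t).diff measurableSet_ball)
    sdiff_subset (by positivity) measurable_const (by simp) (by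
      rintro z ⟨_, hz⟩ _
      rw [mem_ball, dist_eq_norm, not_lt] at hz
      show ‖z - V‖⁻¹ ≤ 256 * H * 2 ^ j * 1
      have e : η⁻¹ = 256 * H * 2 ^ j * 1 := by
        rw [hη, one_div, inv_pow]
        field_simp
      rw [← e]
      exact inv_anti₀ hη0 hz) (RI_one (Kb_fin _)).1
  obtain ⟨e1, e2⟩ := RI_split (A := Kb (ev (T m lam t))) (f := fun z : ℂ => ‖z - V‖⁻¹)
    (A₁ := Kb (ev (T m lam t)) ∩ ball V η) (A₂ := Kb (ev (T m lam t)) \ ball V η)
    (by rw [inter_union_sdiff]) s1 s3.1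
  have h3 := s3.2
  rw [a_eq] at h3
  push_cast at s2
  rw [zero_mul, add_zero, one_mul] at s2
  change J m lam t V ≤ _ at e2
  change _ ≤ _ * J m lam t V' at s2
  linarith

/-- the correction factors -/
noncomputable def W (j : ℕ) : ℝ := Real.exp (5 / 16 * (1 / 2) ^ j)

theorem W_step (j : ℕ) : (1 + 5 / 32 * (1 / 2) ^ j) * W (j + 1) ≤ W j := by
  unfold W
  have h1 : (1 : ℝ) + 5 / 32 * (1 / 2) ^ j ≤ Real.exp (5 / 32 * (1 / 2) ^ j) := by
    have := Real.add_one_le_exp ((5 : ℝ) / 32 * (1 / 2) ^ j)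
    linarith
  calc (1 + 5 / 32 * (1 / 2) ^ j) * Real.exp (5 / 16 * (1 / 2) ^ (j + 1))
      ≤ Real.exp (5 / 32 * (1 / 2) ^ j) * Real.exp (5 / 16 * (1 / 2) ^ (j + 1)) :=
        mul_le_mul_of_nonneg_right h1 (Real.exp_pos _).le
    _ = Real.exp (5 / 16 * (1 / 2) ^ j) := by
        rw [← Real.exp_add]
        congr 1
        rw [pow_succ]
        ring

theorem W_pos (j : ℕ) : 0 < W j := Real.exp_pos _

theorem W_one (j : ℕ) : 1 ≤ W j := Real.one_le_exp (by positivity)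

theorem W_zero : W 0 ≤ 2 := by
  unfold W
  have h1 := Real.exp_one_lt_d9
  have h2 : Real.exp (1 / 2) * Real.exp (1 / 2) = Real.exp 1 := by
    rw [← Real.exp_add]; norm_num
  have h3 : Real.exp (1 / 2) ≤ 2 := by nlinarith [Real.exp_pos (1 / 2)]
  exact (Real.exp_le_exp.2 (by norm_num)).trans h3

include p h in
theorem J_chain : ∀ i j : ℕ, i + j = k →
    J m lam t (v j : ℝ) ≤ 512 * H * 2 ^ j * a m lam t +
      W j * ((∏ l ∈ Finset.range j, lam * ‖hd m (v l : ℝ)‖) /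
        (∏ l ∈ Finset.range k, lam * ‖hd m (v l : ℝ)‖)) * J m lam t 0 := by
  have hl := p.l0
  have hH := p.H1
  have ha := a_nonneg m lam t
  have hJ0 := J_nonneg m lam t 0
  have hepos : ∀ l < k, 0 < lam * ‖hd m (v l : ℝ)‖ := fun l hl' =>
    mul_pos hl (by linarith [v_der p h hl'])
  have hP : ∀ j ≤ k, 0 < ∏ l ∈ Finset.range j, lam * ‖hd m (v l : ℝ)‖ := fun j hj =>
    Finset.prod_pos fun l hl' => hepos l (by have := Finset.mem_range.1 hl'; omega)
  intro i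
  induction i with
  | zero =>
    intro j hj
    rw [zero_add] at hj
    rw [hj, h.hk, Complex.ofReal_zero, div_self (hP k le_rfl).ne', mul_one]
    have h1 := mul_le_mul_of_nonneg_right (W_one k) hJ0
    have h2 : 0 ≤ 512 * H * 2 ^ k * a m lam t := by positivity
    linarith
  | succ i ih =>
    intro j hj
    have h1 := ih (j + 1) (by omega)
    have hjk : j < k := by omega
    have h2 := J_step p h hjk
    have he := hepos j hjk
    have he8 : 8 ≤ lam * ‖hd m (v j : ℝ)‖ := by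
      have h3 := v_der p h hjk
      have h4 := p.l4
      have h5 := mul_le_mul_of_nonneg_left h3 hl.le
      linarith
    set E := lam * ‖hd m (v j : ℝ)‖ with hE
    have hw : (1 : ℝ) ≤ 1 + 5 / 32 * (1 / 2) ^ j := by
      have : (0 : ℝ) < (1 / 2) ^ j := by positivity
      linarith
    have hw2 : (1 : ℝ) + 5 / 32 * (1 / 2) ^ j ≤ 2 := by
      have : ((1 : ℝ) / 2) ^ j ≤ 1 := pow_le_one₀ (by norm_num) (by norm_num)
      linarith
    have h3 := mul_le_mul_of_nonneg_left h1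
      (by positivity : 0 ≤ E⁻¹ * (1 + 5 / 32 * (1 / 2) ^ j))
    have h4 : E⁻¹ * (1 + 5 / 32 * (1 / 2) ^ j) * (512 * H * 2 ^ (j + 1) * a m lam t) ≤
        256 * H * 2 ^ j * a m lam t := by
      have h5 : E⁻¹ * (1 + 5 / 32 * (1 / 2) ^ j) ≤ 1 / 4 := by
        calc E⁻¹ * (1 + 5 / 32 * (1 / 2) ^ j) ≤ 8⁻¹ * 2 :=
              mul_le_mul (inv_anti₀ (by norm_num) he8) hw2 (by linarith) (by norm_num)
          _ = 1 / 4 := by norm_num
      have h6 := mul_le_mul_of_nonneg_right h5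
        (by positivity : 0 ≤ 512 * H * 2 ^ (j + 1) * a m lam t)
      rw [pow_succ] at h6 ⊢
      linarith
    have h7 : E⁻¹ * (1 + 5 / 32 * (1 / 2) ^ j) * (W (j + 1) *
        ((∏ l ∈ Finset.range (j + 1), lam * ‖hd m (v l : ℝ)‖) /
        (∏ l ∈ Finset.range k, lam * ‖hd m (v l : ℝ)‖)) * J m lam t 0) =
        ((1 + 5 / 32 * (1 / 2) ^ j) * W (j + 1)) *
        (((∏ l ∈ Finset.range j, lam * ‖hd m (v l : ℝ)‖) /
        (∏ l ∈ Finset.range k, lam * ‖hd m (v l : ℝ)‖)) * J m lam t 0) := by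
      rw [Finset.prod_range_succ, ← hE]
      field_simp
    have h8 := mul_le_mul_of_nonneg_right (W_step j)
      (mul_nonneg (div_nonneg (hP j hjk.le).le (hP k le_rfl).le) hJ0)
    rw [mul_add (E⁻¹ * (1 + 5 / 32 * (1 / 2) ^ j)), h7] at h3
    linarith

include p h in
/-- the area is at most a constant times the square of the inverse of the derivative -/
theorem area : a m lam t * (∏ l ∈ Finset.range k, lam * ‖hd m (v l : ℝ)‖) ^ 2 ≤
    32 * Real.pi * (m + 2) / lam := by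
  have hl := p.l0
  have hm := p.m1'
  have hH := p.H1
  have ha := a_nonneg m lam t
  have hQ : 0 < ∏ l ∈ Finset.range k, lam * ‖hd m (v l : ℝ)‖ :=
    Finset.prod_pos fun l hl' => mul_pos hl (by
      linarith [v_der p h (Finset.mem_range.1 hl')])
  have h1 := J_chain p h k 0 (by omega)
  rw [h.v0] at h1
  set Q := ∏ l ∈ Finset.range k, lam * ‖hd m (v l : ℝ)‖ with hQe
  have h2 := J_disc m lam t (inv_pos.2 hQ)
  have h3 := a_le p h.ht
  set A := a m lam t with hA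
  have h4 : J m lam t t ≤ 514 * H * A + 8 * Real.pi * (Q⁻¹) ^ 2 := by
    rw [Finset.prod_range_zero, pow_zero, mul_one, one_div] at h1
    rw [one_div, inv_inv] at h2
    have h5 : W 0 * Q⁻¹ * J m lam t 0 ≤ 2 * Q⁻¹ * (4 * Real.pi * Q⁻¹ + Q * A) := by
      apply mul_le_mul _ h2 (J_nonneg _ _ _ _) (by positivity)
      exact mul_le_mul_of_nonneg_right W_zero (by positivity)
    have h6 : 2 * Q⁻¹ * (4 * Real.pi * Q⁻¹ + Q * A) = 8 * Real.pi * (Q⁻¹) ^ 2 + 2 * A := by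
      field_simp
      ring
    have h7 : 2 * A ≤ 2 * H * A := by nlinarith
    linarith
  have h5 : ((m : ℝ) + 2) * (16 / lam ^ 2) ≤ 1 / 4 := by
    rw [mul_div_assoc', div_le_iff₀ (by positivity)]
    have h6 := p.l3
    have h7 := p.l4
    nlinarith
  have h6 : ((m : ℝ) + 2) * (2 / lam * (514 * H)) ≤ 1 / 4 := by
    have e : ((m : ℝ) + 2) * (2 / lam * (514 * H)) = (m + 2) * (1028 * H) / lam := by
      field_simp
      ring
    rw [e, div_le_iff₀ hl]
    have h7 := p.l2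
    linarith
  have h7 : A ≤ 1 / 4 * A + (1 / 4 * A + (m + 2) * (2 / lam * (8 * Real.pi * (Q⁻¹) ^ 2))) := by
    have e1 := mul_le_mul_of_nonneg_right h5 ha
    have e2 := mul_le_mul_of_nonneg_right h6 ha
    have e3 := mul_le_mul_of_nonneg_left h4 (by positivity : 0 ≤ ((m : ℝ) + 2) * (2 / lam))
    have e4 : ((m : ℝ) + 2) * (2 / lam) * (514 * H * A + 8 * Real.pi * (Q⁻¹) ^ 2) =
        ((m : ℝ) + 2) * (2 / lam * (514 * H)) * A +
          ((m : ℝ) + 2) * (2 / lam * (8 * Real.pi * (Q⁻¹) ^ 2)) := by ring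
    have e5 : ((m : ℝ) + 2) * (16 / lam ^ 2 * A + 2 / lam * J m lam t t) =
        ((m : ℝ) + 2) * (16 / lam ^ 2) * A + ((m : ℝ) + 2) * (2 / lam) * J m lam t t := by ring
    linarith
  have h8 : A ≤ 32 * Real.pi * (m + 2) / lam * (Q⁻¹) ^ 2 := by
    have e1 : 32 * Real.pi * (m + 2) / lam * (Q⁻¹) ^ 2 =
        2 * (((m : ℝ) + 2) * (2 / lam * (8 * Real.pi * (Q⁻¹) ^ 2))) := by ring
    rw [e1]
    linarith
  have h9 := mul_le_mul_of_nonneg_right h8 (by positivity : 0 ≤ Q ^ 2)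
  have e : 32 * Real.pi * (m + 2) / lam * (Q⁻¹) ^ 2 * Q ^ 2 = 32 * Real.pi * (m + 2) / lam := by
    field_simp
  rwa [e] at h9

end

end Pool.Agent.H20.SH.High
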