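import Mathlib
import Pool.Agent.H20.SH.High

/-! # The linear law is sharp -/

set_option autoImplicit false

open Topology Filter Metric Set Polynomial MeasureTheory
open Pool.Agent.H713R5.QJ (ev)

namespace Pool.Agent.H20.SH.High

/-- the orbit of the critical value -/
noncomputable def orb (m : ℕ) (lam t : ℝ) : ℕ → ℝ
  | 0 => t
  | j + 1 => lam * (orb m lam t j ^ 2 * (orb m lam t j ^ m - 1)) + t

theorem orb_exists {m : ℕ} {H lam : ℝ} (p : Par m H lam) (k : ℕ) :
    ∃ (t : ℝ) (v : ℕ → ℝ), Orb m lam t k v := by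
  have hl := p.l4
  have hcont : ∀ j : ℕ, Continuous fun t : ℝ => orb m lam t j := by
    intro j
    induction j with
    | zero =>
      show Continuous fun t : ℝ => t
      fun_prop
    | succ j ih =>
      show Continuous fun t : ℝ => lam * (orb m lam t j ^ 2 * (orb m lam t j ^ m - 1)) + t
      fun_prop
  have h1 : ∀ j : ℕ, orb m lam 1 j = 1 := by
    intro j
    induction j with
    | zero => rfl
    | succ j ih =>
      show lam * (orb m lam 1 j ^ 2 * (orb m lam 1 j ^ m - 1)) + 1 = 1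
      rw [ih]
      simp
  obtain ⟨t, ht, hk0, hj⟩ := real_orbit (g := fun j t => orb m lam t j) (lo := -1)
    (hi := 1) (θ := 1 / 2) (by norm_num) (by norm_num) hcont
    (fun j => by
      show 1 / 2 < orb m lam 1 j
      rw [h1]
      norm_num)
    (by
      show (-1 : ℝ) < 0
      norm_num)
    (by
      intro j t ht _ h3
      show lam * (orb m lam t j ^ 2 * (orb m lam t j ^ m - 1)) + t < 0
      have h5 : orb m lam t j = 1 / 2 := h3
      rw [h5]
      have h6 : ((1 : ℝ) / 2) ^ m ≤ 1 / 2 := by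
        calc ((1 : ℝ) / 2) ^ m ≤ (1 / 2) ^ 1 :=
              pow_le_pow_of_le_one (by norm_num) (by norm_num) p.m1
          _ = 1 / 2 := pow_one _
      have h7 : lam * ((1 / 2) ^ 2 * ((1 / 2) ^ m - 1)) ≤ lam * ((1 / 2) ^ 2 * (1 / 2 - 1)) :=
        mul_le_mul_of_nonneg_left (mul_le_mul_of_nonneg_left (by linarith) (by norm_num))
          (by linarith)
      have h8 := ht.2
      linarith) k
  have hup : ∀ i j : ℕ, 2 < orb m lam t j → 2 < orb m lam t (i + j) := by
    intro i j hj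
    induction i with
    | zero => rwa [zero_add]
    | succ i ih =>
      rw [show i + 1 + j = (i + j) + 1 by ring]
      show 2 < lam * (orb m lam t (i + j) ^ 2 * (orb m lam t (i + j) ^ m - 1)) + t
      set y := orb m lam t (i + j) with hy
      have h2 : 2 ≤ y ^ m := by
        calc (2 : ℝ) ≤ y ^ 1 := by rw [pow_one]; exact ih.le
          _ ≤ y ^ m := pow_le_pow_right₀ (by linarith) p.m1
      have h3 : 4 ≤ y ^ 2 := by nlinarith
      have h4 : 4 ≤ y ^ 2 * (y ^ m - 1) := by nlinarith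
      have h5 : 90000 * 4 ≤ lam * (y ^ 2 * (y ^ m - 1)) :=
        mul_le_mul hl h4 (by norm_num) (by linarith)
      have h6 := ht.1
      linarith
  refine ⟨t, orb m lam t, ⟨abs_le.2 ⟨ht.1, ht.2⟩, rfl, fun _ => rfl, hk0, hj, ?_⟩⟩
  intro j hjk
  rcases Nat.lt_or_eq_of_le hjk with h2 | h2
  · have h3 : 1 / 2 ≤ orb m lam t j := hj j h2
    rw [abs_of_pos (by linarith)]
    by_contra hcon
    push Not at hcon
    have h4 := hup (k - j) j hcon
    rw [Nat.sub_add_cancel hjk] at h4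
    have h5 : orb m lam t k = 0 := hk0
    rw [h5] at h4
    norm_num at h4
  · have h5 : orb m lam t k = 0 := hk0
    rw [h2, h5]
    simp

theorem coeff_T (m : ℕ) (lam t : ℝ) (i : ℕ) : (T m lam t).coeff i =
    lam * ((if i = m + 2 then 1 else 0) - (if i = 2 then 1 else 0)) +
      (if i = 0 then (t : ℂ) else 0) := by
  simp only [T, hP, coeff_add, coeff_C_mul, coeff_sub, coeff_X_pow, coeff_C]

/-- degree at least three -/
theorem mainH {m : ℕ} (hm : 1 ≤ m) : ∃ (A c₀ : ℝ), 0 < A ∧ 0 < c₀ ∧ ∀ η : ℝ, 0 < η →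
    ∃ T : ℂ[X], T.natDegree = m + 2 ∧
    (∀ i : ℕ, ‖T.coeff i‖ ≤ A) ∧ 1 / A ≤ ‖T.leadingCoeff‖ ∧
    0 < volume {z : ℂ | ¬ Tendsto (fun k : ℕ => ‖(ev T)^[k] z‖) atTop atTop} ∧
    volume {z : ℂ | ¬ Tendsto (fun k : ℕ => ‖(ev T)^[k] z‖) atTop atTop} < ENNReal.ofReal η ∧
    ∀ S : ℂ[X], S.natDegree = m + 2 → (∀ i : ℕ, ‖S.coeff i - T.coeff i‖ <
      c₀ * (volume {z : ℂ | ¬ Tendsto (fun k : ℕ => ‖(ev T)^[k] z‖) atTop atTop}).toReal) →
      ∃ c : ℂ, (derivative S).eval c = 0 ∧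
        ¬ Tendsto (fun k : ℕ => ‖(ev S)^[k] c‖) atTop atTop := by
  obtain ⟨H, hH1, hH⟩ := lip m
  set lam : ℝ := 10000 * ((m : ℝ) + 2) ^ 2 * H with hlam
  have p : Par m H lam := ⟨hm, hH1, hH, le_of_eq hlam.symm⟩
  have hl := p.l0
  have hl4 := p.l4
  have hC : 0 < 32 * Real.pi * (m + 2) / lam := by positivity
  refine ⟨lam, 1 / (32 * (2 * lam + lam * H) * (((m + 2 : ℕ) + 1) * 3 ^ (m + 2)) *
    (32 * Real.pi * (m + 2) / lam)), hl, by positivity, ?_⟩
  intro η hη
  -- a long orbit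
  obtain ⟨k, hk⟩ : ∃ k : ℕ, 32 * Real.pi * (m + 2) / lam * ((1 / 4 : ℝ) ^ k) < η := by
    have t1 : Tendsto (fun n : ℕ => 32 * Real.pi * (m + 2) / lam * ((1 / 4 : ℝ) ^ n)) atTop
        (𝓝 0) := by
      have := (tendsto_pow_atTop_nhds_zero_of_lt_one (r := (1 : ℝ) / 4) (by norm_num)
        (by norm_num)).const_mul (32 * Real.pi * (m + 2) / lam)
      rwa [mul_zero] at this
    exact (t1.eventually (eventually_lt_nhds hη)).exists
  obtain ⟨t, v, h⟩ := orb_exists p k
  have hA := area p h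
  have hder : ∀ j < k, 2 ≤ lam * ‖hd m (v j : ℝ)‖ := by
    intro j hj
    have h3 := v_der p h hj
    have h5 := mul_le_mul_of_nonneg_left h3 hl.le
    linarith
  obtain ⟨e1, e2, e3⟩ := assemble (T := T m lam t) (d := m + 2) (deg_T p t) (by omega)
    (by
      rw [coeff_T]
      simp)
    (by
      rw [coeff_T]
      have h1 : ¬ (2 = m + 2) := by omega
      simp only [h1, if_false, if_true]
      norm_num
      rw [abs_of_pos hl]
      linarith)
    (grow p h.ht) (k := k) (v := fun j => ((v j : ℝ) : ℂ)) (e := fun j => lam * ‖hd m (v j : ℝ)‖)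
    (L := 2 * lam) (H := lam * H) (C := 32 * Real.pi * (m + 2) / lam) (by linarith)
    (by nlinarith) hder (fun j hj => v_norm h hj.le)
    (by
      show ((v k : ℝ) : ℂ) = 0
      rw [h.hk, Complex.ofReal_zero])
    (by
      intro z hz
      rw [ev_T, h.v0, add_sub_cancel_right, norm_mul, Complex.norm_real, Real.norm_eq_abs,
        abs_of_pos hl]
      unfold hf
      rw [norm_mul, norm_pow]
      have h1 : ‖z ^ m - 1‖ ≤ 2 := by
        have h2 := norm_sub_le (z ^ m) (1 : ℂ)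
        rw [norm_one, norm_pow] at h2
        have h3 : ‖z‖ ^ m ≤ 1 := pow_le_one₀ (norm_nonneg _) hz
        linarith
      have h2 := mul_le_mul_of_nonneg_left h1 (by positivity : 0 ≤ lam * ‖z‖ ^ 2)
      linarith)
    (by
      intro j hj z hz
      have h1 := vs_c h j
      show ‖ev (T m lam t) z - ((v (j + 1) : ℝ) : ℂ)‖ ≤ _
      rw [h1, ev_T, add_sub_add_right_eq_sub, ← mul_sub, norm_mul, Complex.norm_real,
        Real.norm_eq_abs, abs_of_pos hl]
      have h2 := mv p (v_norm h hj.le) hz (z := z) (w := (v j : ℝ)) le_rfl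
        (by rw [sub_self, norm_zero]; positivity)
      have h3 := norm_sub_norm_le (hf m z - hf m (v j : ℝ)) (hd m (v j : ℝ) * (z - (v j : ℝ)))
      rw [norm_mul] at h3
      have h4 : ‖hf m z - hf m (v j : ℝ)‖ ≤ ‖hd m (v j : ℝ)‖ * ‖z - (v j : ℝ)‖ +
          H * ‖z - (v j : ℝ)‖ * ‖z - (v j : ℝ)‖ := by linarith
      have h5 := mul_le_mul_of_nonneg_left h4 hl.le
      refine h5.trans (le_of_eq ?_)
      ring)
    hC hA
  refine ⟨T m lam t, deg_T p t, ?_, ?_, ?_⟩
  · intro i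
    rw [coeff_T]
    rcases eq_or_ne i 0 with rfl | h0
    · have h2 := h.ht
      simp
      linarith
    · rcases eq_or_ne i 2 with rfl | h2
      · have h1 : ¬ (m = 0) := by omega
        simp [h1]
        rw [abs_of_pos hl]
      · rcases eq_or_ne i (m + 2) with h3 | h3
        · simp [h3]
          have h1 : ¬ (m = 0) := by omega
          simp [h1]
          rw [abs_of_pos hl]
        · simp [h0, h2, h3]
          exact hl.le
  · rw [leadingCoeff, deg_T p, coeff_T]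
    simp
    have h3 : ¬ (m = 0) := by omega
    simp [h3]
    rw [abs_of_pos hl]
    exact (inv_le_one_of_one_le₀ (by linarith)).trans (by linarith)
  · rw [e1]
    refine ⟨e2, ?_, e3⟩
    rw [← ENNReal.ofReal_toReal (Kb_fin (ev (T m lam t)))]
    apply (ENNReal.ofReal_lt_ofReal_iff hη).2
    refine lt_of_le_of_lt ?_ hk
    have h1 : (4 : ℝ) ^ k ≤ (∏ l ∈ Finset.range k, lam * ‖hd m (v l : ℝ)‖) ^ 2 := by
      have h2 : (2 : ℝ) ^ k ≤ ∏ l ∈ Finset.range k, lam * ‖hd m (v l : ℝ)‖ := by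
        calc (2 : ℝ) ^ k = ∏ _l ∈ Finset.range k, (2 : ℝ) := by
              rw [Finset.prod_const, Finset.card_range]
          _ ≤ _ := Finset.prod_le_prod (fun _ _ => by norm_num)
            (fun i hi => hder i (Finset.mem_range.1 hi))
      calc (4 : ℝ) ^ k = ((2 : ℝ) ^ k) ^ 2 := by
            rw [← pow_mul, mul_comm, pow_mul]
            norm_num
        _ ≤ _ := pow_le_pow_left₀ (by positivity) h2 2
    have h3 : (volume (Kb (ev (T m lam t)))).toReal * 4 ^ k ≤ 32 * Real.pi * (m + 2) / lam :=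
      (mul_le_mul_of_nonneg_left h1 ENNReal.toReal_nonneg).trans hA
    have h4 : (volume (Kb (ev (T m lam t)))).toReal =
        (volume (Kb (ev (T m lam t)))).toReal * 4 ^ k * (1 / 4) ^ k := by
      rw [mul_assoc, ← mul_pow]
      norm_num
    rw [h4]
    exact mul_le_mul_of_nonneg_right h3 (by positivity)

end Pool.Agent.H20.SH.High

namespace Pool.Agent.H20.SH

/-- all degrees -/
theorem mainS (d : ℕ) (hd : 2 ≤ d) : ∃ (A c₀ : ℝ), 0 < A ∧ 0 < c₀ ∧ ∀ η : ℝ, 0 < η →
    ∃ T : ℂ[X], T.natDegree = d ∧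
    (∀ i : ℕ, ‖T.coeff i‖ ≤ A) ∧ 1 / A ≤ ‖T.leadingCoeff‖ ∧
    0 < volume {z : ℂ | ¬ Tendsto (fun k : ℕ => ‖(ev T)^[k] z‖) atTop atTop} ∧
    volume {z : ℂ | ¬ Tendsto (fun k : ℕ => ‖(ev T)^[k] z‖) atTop atTop} < ENNReal.ofReal η ∧
    ∀ S : ℂ[X], S.natDegree = d → (∀ i : ℕ, ‖S.coeff i - T.coeff i‖ <
      c₀ * (volume {z : ℂ | ¬ Tendsto (fun k : ℕ => ‖(ev T)^[k] z‖) atTop atTop}).toReal) →
      ∃ c : ℂ, (derivative S).eval c = 0 ∧
        ¬ Tendsto (fun k : ℕ => ‖(ev S)^[k] c‖) atTop atTop := by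
  rcases Nat.lt_or_eq_of_le hd with h | h
  · obtain ⟨m, rfl⟩ : ∃ m, d = m + 2 := ⟨d - 2, by omega⟩
    exact High.mainH (by omega)
  · subst h
    obtain ⟨c₀, hc₀, h1⟩ := Quad.mainQ
    refine ⟨2, c₀, by norm_num, hc₀, fun η hη => ?_⟩
    obtain ⟨T, e1, e2, e3, e4⟩ := h1 η hη
    refine ⟨T, e1, e2, ?_, e4⟩
    rw [e3]
    norm_num

end Pool.Agent.H20.SH
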